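import Pool.Agent.Y5.D.Stm

/-!
# Packets: the trilinear form of fields `a(k) k^⊥`
-/

set_option autoImplicit false

namespace Pool.Agent.Y155.ND

open Pool.Agent.Y5 Pool.Agent.Y5.D Finset

/-- planar cross product -/
noncomputable def cr (p q : Z3) : ℝ := (p 0 : ℝ) * q 1 - p 1 * q 0

/-- planar inner product -/
noncomputable def dt (p q : Z3) : ℝ := (p 0 : ℝ) * q 0 + p 1 * q 1

/-- rotated horizontal part -/
noncomputable def perp (k : Z3) : E3 := WithLp.toLp 2 ![-(k 1 : ℝ), (k 0 : ℝ), 0]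

/-- the family with the scalar function `a` -/
noncomputable def fam (a : Z3 → ℝ) : Fam := fun k => (-(a k)) • perp k

theorem inner_perp_vec (p k : Z3) : inner ℝ (perp p) (vec k) = cr p k := by
  simp [perp, vec, cr, PiLp.inner_apply, Fin.sum_univ_three]
  ring

theorem inner_perp_perp (p k : Z3) : inner ℝ (perp p) (perp k) = dt p k := by
  simp [perp, dt, PiLp.inner_apply, Fin.sum_univ_three]
  ring

theorem perp_neg (k : Z3) : perp (-k) = -perp k := by
  ext i
  fin_cases i <;> simp [perp]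

theorem norm_perp_sq (k : Z3) : ‖perp k‖ ^ 2 = dt k k := by
  rw [← inner_perp_perp, real_inner_self_eq_norm_sq]

theorem norm_vec_sq (k : Z3) : ‖vec k‖ ^ 2 = (k 0 : ℝ) ^ 2 + (k 1 : ℝ) ^ 2 + (k 2 : ℝ) ^ 2 := by
  rw [EuclideanSpace.norm_sq_eq]
  simp [vec, Fin.sum_univ_three]

theorem cr_self (p : Z3) : cr p p = 0 := by unfold cr; ring

theorem cr_comm (p q : Z3) : cr p q = -cr q p := by unfold cr; ring

theorem cr_add_right (p q r : Z3) : cr p (q + r) = cr p q + cr p r := by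
  simp [cr]; ring

theorem dt_add_right (p q r : Z3) : dt p (q + r) = dt p q + dt p r := by
  simp [dt]; ring

theorem dt_comm (p q : Z3) : dt p q = dt q p := by unfold dt; ring

theorem cr_neg_left (p q : Z3) : cr (-p) q = -cr p q := by simp [cr]; ring
theorem cr_neg_right (p q : Z3) : cr p (-q) = -cr p q := by simp [cr]; ring
theorem dt_neg_left (p q : Z3) : dt (-p) q = -dt p q := by simp [dt]; ring
theorem dt_neg_right (p q : Z3) : dt p (-q) = -dt p q := by simp [dt]; ring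

theorem fam_ot {a : Z3 → ℝ} (ha : ∀ k, a (-k) = a k) : OT (fam a) := by
  constructor
  · intro k
    simp only [fam, ha, perp_neg, smul_neg]
  · intro k
    rw [fam, inner_smul_right, real_inner_comm, inner_perp_vec, cr_self, mul_zero]

/-- the summand of the trilinear form -/
noncomputable def tm (a b d : Z3 → ℝ) (p q : Z3) : ℝ :=
  a p * b q * d (p + q) * (cr p q * dt q (p + q))

/-- the trilinear form for scalar functions -/
noncomputable def tri (a b d : Z3 → ℝ) : ℝ := ∑' x : Z3 × Z3, tm a b d x.1 x.2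

/-- `(p, q) ↦ (p, p + q)` -/
def sh : Z3 × Z3 ≃ Z3 × Z3 where
  toFun x := (x.1, x.1 + x.2)
  invFun x := (x.1, x.2 - x.1)
  left_inv x := by ext <;> simp
  right_inv x := by ext <;> simp

theorem bil_fam (a b d : Z3 → ℝ) : bil (fam a) (fam b) (fam d) = 2 * Real.pi * tri a b d := by
  rw [bil, tri, ← sh.tsum_eq (fun q : Z3 × Z3 => inner ℝ (fam a q.1) (vec q.2) *
    inner ℝ (fam b (q.2 - q.1)) (fam d q.2)), neg_mul, ← mul_neg, ← tsum_neg]
  congr 1
  apply tsum_congr
  rintro ⟨p, q⟩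
  simp only [sh, Equiv.coe_fn_mk, tm, fam, inner_smul_left, inner_smul_right, inner_perp_vec,
    inner_perp_perp, add_sub_cancel_left, cr_add_right, cr_self, zero_add]
  simp
  ring

/-- `(p, q) ↦ (-p, p + q)` -/
def sw : Z3 × Z3 ≃ Z3 × Z3 where
  toFun x := (-x.1, x.1 + x.2)
  invFun x := (-x.1, x.1 + x.2)
  left_inv x := by ext <;> simp
  right_inv x := by ext <;> simp

theorem tri_anti {a : Z3 → ℝ} (ha : ∀ k, a (-k) = a k) (b d : Z3 → ℝ) :
    tri a b d = -tri a d b := by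
  rw [tri, ← sw.tsum_eq, tri, ← tsum_neg]
  apply tsum_congr
  rintro ⟨p, q⟩
  simp only [sw, Equiv.coe_fn_mk, tm, ha, neg_add_cancel_left, cr_neg_left, cr_add_right, cr_self]
  rw [dt_comm (p + q) q]
  ring

theorem bil_anti {a : Z3 → ℝ} (ha : ∀ k, a (-k) = a k) (b d : Z3 → ℝ) :
    bil (fam a) (fam b) (fam d) = -bil (fam a) (fam d) (fam b) := by
  rw [bil_fam, bil_fam, tri_anti ha]
  ring

/-- reduction to a finite sum -/
theorem tri_eq_sum {a b d : Z3 → ℝ} {A B : Finset Z3} (hA : ∀ k, a k ≠ 0 → k ∈ A)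
    (hB : ∀ k, b k ≠ 0 → k ∈ B) : tri a b d = ∑ p ∈ A, ∑ q ∈ B, tm a b d p q := by
  rw [tri, tsum_eq_sum (s := A ×ˢ B), Finset.sum_product]
  rintro ⟨p, q⟩ h
  rw [tm]
  by_cases h1 : a p = 0
  · rw [h1]; ring
  · by_cases h2 : b q = 0
    · rw [h2]; ring
    · exact absurd (Finset.mem_product.2 ⟨hA p h1, hB q h2⟩) h

theorem tri_smul (s t u : ℝ) (a b d : Z3 → ℝ) :
    tri (fun k => s * a k) (fun k => t * b k) (fun k => u * d k) = s * t * u * tri a b d := by
  rw [tri, tri, ← tsum_mul_left]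
  apply tsum_congr
  intro x
  simp only [tm]
  ring

theorem tsum_fam {a : Z3 → ℝ} {A : Finset Z3} (hA : ∀ k, a k ≠ 0 → k ∈ A) (f : Z3 → E3 → ℝ)
    (hf : ∀ k, f k 0 = 0) : ∑' k, f k (fam a k) = ∑ k ∈ A, f k (fam a k) := by
  apply tsum_eq_sum
  intro k hk
  have h1 : a k = 0 := by
    by_contra h
    exact hk (hA k h)
  rw [fam, h1, neg_zero, zero_smul, hf]

end Pool.Agent.Y155.ND
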