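import Pool.Agent.Y155.ND.TA

/-!
# Cubes and sums over cubes
-/

set_option autoImplicit false

namespace Pool.Agent.Y155.ND

open Pool.Agent.Y5 Pool.Agent.Y5.D Finset

/-- the cube of radius `N` around `c` -/
noncomputable def cube (N : ℕ) (c : Z3) : Finset Z3 := Fintype.piFinset fun i => Icc (c i - N) (c i + N)

theorem mem_cube {N : ℕ} {c k : Z3} : k ∈ cube N c ↔ (c 0 - N ≤ k 0 ∧ k 0 ≤ c 0 + N) ∧
    (c 1 - N ≤ k 1 ∧ k 1 ≤ c 1 + N) ∧ (c 2 - N ≤ k 2 ∧ k 2 ≤ c 2 + N) := by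
  simp [cube, Fin.forall_fin_succ]

def c0 (N : ℕ) : Z3 := ![21 * N, 0, 0]
def c1 (N : ℕ) : Z3 := ![-(21 * N), 0, 0]
def c2 (N : ℕ) : Z3 := ![17 * N, 17 * N, 0]
def c3 (N : ℕ) : Z3 := ![-(17 * N), -(17 * N), 0]

theorem mem_c0 {N : ℕ} {k : Z3} : k ∈ cube N (c0 N) ↔ (20 * N ≤ k 0 ∧ k 0 ≤ 22 * N) ∧
    (-(N : ℤ) ≤ k 1 ∧ k 1 ≤ N) ∧ (-(N : ℤ) ≤ k 2 ∧ k 2 ≤ N) := by
  rw [mem_cube]
  simp only [c0, Matrix.cons_val_zero, Matrix.cons_val_one, Matrix.cons_val]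
  omega

theorem mem_c1 {N : ℕ} {k : Z3} : k ∈ cube N (c1 N) ↔ (-(22 * (N : ℤ)) ≤ k 0 ∧ k 0 ≤ -(20 * N)) ∧
    (-(N : ℤ) ≤ k 1 ∧ k 1 ≤ N) ∧ (-(N : ℤ) ≤ k 2 ∧ k 2 ≤ N) := by
  rw [mem_cube]
  simp only [c1, Matrix.cons_val_zero, Matrix.cons_val_one, Matrix.cons_val]
  omega

theorem mem_c2 {N : ℕ} {k : Z3} : k ∈ cube N (c2 N) ↔ (16 * N ≤ k 0 ∧ k 0 ≤ 18 * N) ∧
    (16 * N ≤ k 1 ∧ k 1 ≤ 18 * N) ∧ (-(N : ℤ) ≤ k 2 ∧ k 2 ≤ N) := by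
  rw [mem_cube]
  simp only [c2, Matrix.cons_val_zero, Matrix.cons_val_one, Matrix.cons_val]
  omega

theorem mem_c3 {N : ℕ} {k : Z3} : k ∈ cube N (c3 N) ↔ (-(18 * (N : ℤ)) ≤ k 0 ∧ k 0 ≤ -(16 * N)) ∧
    (-(18 * (N : ℤ)) ≤ k 1 ∧ k 1 ≤ -(16 * N)) ∧ (-(N : ℤ) ≤ k 2 ∧ k 2 ≤ N) := by
  rw [mem_cube]
  simp only [c3, Matrix.cons_val_zero, Matrix.cons_val_one, Matrix.cons_val]
  omega

theorem Icc_succ (c : ℤ) (N : ℕ) : Icc (c - (N + 1 : ℕ)) (c + (N + 1 : ℕ)) =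
    insert (c - (N + 1)) (insert (c + (N + 1)) (Icc (c - N) (c + N))) := by
  ext x
  simp only [mem_Icc, mem_insert]
  push_cast
  omega

theorem sum_Icc_succ (c : ℤ) (N : ℕ) (f : ℤ → ℝ) : ∑ x ∈ Icc (c - (N + 1 : ℕ)) (c + (N + 1 : ℕ)), f x =
    f (c - (N + 1)) + (f (c + (N + 1)) + ∑ x ∈ Icc (c - N) (c + N), f x) := by
  rw [Icc_succ, sum_insert, sum_insert]
  · simp only [mem_Icc]; omega
  · simp only [mem_Icc, mem_insert]; omega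

theorem sum_one (c : ℤ) (N : ℕ) : ∑ _x ∈ Icc (c - N) (c + N), (1 : ℝ) = 2 * N + 1 := by
  induction N with
  | zero => simp
  | succ N ih =>
    rw [sum_Icc_succ, ih]
    push_cast
    ring

theorem sum_id (c : ℤ) (N : ℕ) : ∑ x ∈ Icc (c - N) (c + N), (x : ℝ) = (2 * N + 1) * c := by
  induction N with
  | zero => simp
  | succ N ih =>
    rw [sum_Icc_succ, ih]
    push_cast
    ring

theorem sum_sq (c : ℤ) (N : ℕ) : ∑ x ∈ Icc (c - N) (c + N), (x : ℝ) ^ 2 =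
    (2 * N + 1) * c ^ 2 + N * (N + 1) * (2 * N + 1) / 3 := by
  induction N with
  | zero => simp
  | succ N ih =>
    rw [sum_Icc_succ, ih]
    push_cast
    ring

theorem sum_cube (N : ℕ) (c : Z3) (f : ℤ → ℤ → ℝ) : ∑ k ∈ cube N c, f (k 0) (k 1) =
    (2 * N + 1) * ∑ x ∈ Icc (c 0 - N) (c 0 + N), ∑ y ∈ Icc (c 1 - N) (c 1 + N), f x y := by
  have h : ∑ k ∈ cube N c, f (k 0) (k 1) = ∑ x ∈ Icc (c 0 - N) (c 0 + N) ×ˢ
      (Icc (c 1 - N) (c 1 + N) ×ˢ Icc (c 2 - (N : ℤ)) (c 2 + N)), f x.1 x.2.1 := by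
    refine sum_nbij' (fun k => (k 0, k 1, k 2)) (fun x => ![x.1, x.2.1, x.2.2]) ?_ ?_ ?_ ?_ ?_
    · intro k hk
      simpa only [mem_product, mem_Icc] using mem_cube.1 hk
    · rintro ⟨x, y, z⟩ hx
      rw [mem_cube]
      have h1 := hx
      simp only [mem_product, mem_Icc] at h1
      exact h1
    · intro k _
      ext i
      fin_cases i <;> rfl
    · rintro ⟨x, y, z⟩ _
      rfl
    · intro k _
      rfl
  rw [h, sum_product]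
  simp only [sum_product, sum_const]
  rw [mul_sum]
  refine sum_congr rfl fun x _ => ?_
  rw [mul_sum]
  refine sum_congr rfl fun y _ => ?_
  rw [nsmul_eq_mul, Int.card_Icc]
  congr 1
  have : (c 2 + (N : ℤ) + 1 - (c 2 - N)).toNat = 2 * N + 1 := by omega
  rw [this]
  push_cast
  ring

/-- `2 N + 1` -/
noncomputable def m (N : ℕ) : ℝ := 2 * N + 1

theorem sum_cube_one (N : ℕ) (c : Z3) : ∑ _k ∈ cube N c, (1 : ℝ) = m N ^ 3 := by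
  have h : ∀ c : ℤ, ((Icc (c - (N : ℤ)) (c + N)).card : ℝ) = 2 * N + 1 := by
    intro c
    rw [← sum_one c N]; simp
  rw [sum_cube N c (fun _ _ => 1)]
  simp only [sum_const, nsmul_eq_mul, h, m]
  ring

theorem card_cube (N : ℕ) (c : Z3) : ((cube N c).card : ℝ) = m N ^ 3 := by
  rw [← sum_cube_one N c]; simp

theorem sum_cube_sq0 (N : ℕ) (c : Z3) : ∑ k ∈ cube N c, (k 0 : ℝ) ^ 2 =
    m N ^ 3 * ((c 0 : ℝ) ^ 2 + N * (N + 1) / 3) := by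
  rw [sum_cube N c (fun x _ => (x : ℝ) ^ 2), sum_comm]
  simp only [sum_sq]
  rw [← mul_one ((2 * (N : ℝ) + 1) * (c 0 : ℝ) ^ 2 + _), ← mul_sum, sum_one, m]
  ring

theorem sum_cube_sq1 (N : ℕ) (c : Z3) : ∑ k ∈ cube N c, (k 1 : ℝ) ^ 2 =
    m N ^ 3 * ((c 1 : ℝ) ^ 2 + N * (N + 1) / 3) := by
  rw [sum_cube N c (fun _ y => (y : ℝ) ^ 2)]
  simp only [sum_sq]
  rw [← mul_one ((2 * (N : ℝ) + 1) * (c 1 : ℝ) ^ 2 + _), ← mul_sum, sum_one, m]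
  ring

theorem sum_cube_mul (N : ℕ) (c : Z3) : ∑ k ∈ cube N c, (k 0 : ℝ) * k 1 =
    m N ^ 3 * ((c 0 : ℝ) * c 1) := by
  rw [sum_cube N c (fun x y => (x : ℝ) * y)]
  simp only [← mul_sum, ← sum_mul, sum_id]
  rw [m]
  ring

end Pool.Agent.Y155.ND
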