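import Pool.Agent.Y155.ND.TB

/-!
# The weight functions
-/

set_option autoImplicit false

namespace Pool.Agent.Y155.ND

open Pool.Agent.Y5 Pool.Agent.Y5.D Finset

/-- indicator of a cube -/
noncomputable def ic (N : ℕ) (c k : Z3) : ℝ := if k ∈ cube N c then 1 else 0

/-- the main weight -/
noncomputable def g (N : ℕ) (k : Z3) : ℝ :=
  ic N (c0 N) k + ic N (c1 N) k + (ic N (c2 N) k + ic N (c3 N) k) / 2

/-- its support -/
noncomputable def Q (N : ℕ) : Finset Z3 :=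
  cube N (c0 N) ∪ cube N (c1 N) ∪ (cube N (c2 N) ∪ cube N (c3 N))

theorem mem_Q {N : ℕ} {k : Z3} : k ∈ Q N ↔
    (k ∈ cube N (c0 N) ∨ k ∈ cube N (c1 N)) ∨ (k ∈ cube N (c2 N) ∨ k ∈ cube N (c3 N)) := by
  simp only [Q, mem_union]

theorem ic_nonneg (N : ℕ) (c k : Z3) : 0 ≤ ic N c k := by
  unfold ic; split_ifs <;> norm_num

theorem g_nonneg (N : ℕ) (k : Z3) : 0 ≤ g N k := by
  unfold g
  have h0 := ic_nonneg N (c0 N) k
  have h1 := ic_nonneg N (c1 N) k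
  have h2 := ic_nonneg N (c2 N) k
  have h3 := ic_nonneg N (c3 N) k
  linarith

theorem g_zero {N : ℕ} {k : Z3} (h : k ∉ Q N) : g N k = 0 := by
  rw [mem_Q] at h
  push Not at h
  simp [g, ic, h.1.1, h.1.2, h.2.1, h.2.2]

theorem mem_of_g {N : ℕ} {k : Z3} (h : g N k ≠ 0) : k ∈ Q N := by
  by_contra h1
  exact h (g_zero h1)

/-- the value on the cubes -/
theorem g_val {N : ℕ} (hN : 1 ≤ N) (k : Z3) :
    (k ∈ cube N (c0 N) → g N k = 1 ∧ k ∉ cube N (c1 N) ∧ k ∉ cube N (c2 N) ∧ k ∉ cube N (c3 N)) ∧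
    (k ∈ cube N (c1 N) → g N k = 1 ∧ k ∉ cube N (c0 N) ∧ k ∉ cube N (c2 N) ∧ k ∉ cube N (c3 N)) ∧
    (k ∈ cube N (c2 N) → g N k = 1 / 2 ∧ k ∉ cube N (c0 N) ∧ k ∉ cube N (c1 N) ∧ k ∉ cube N (c3 N)) ∧
    (k ∈ cube N (c3 N) → g N k = 1 / 2 ∧ k ∉ cube N (c0 N) ∧ k ∉ cube N (c1 N) ∧ k ∉ cube N (c2 N)) := by
  have e0 := @mem_c0 N k
  have e1 := @mem_c1 N k
  have e2 := @mem_c2 N k
  have e3 := @mem_c3 N k
  have h01 : ¬ (k ∈ cube N (c0 N) ∧ k ∈ cube N (c1 N)) := by rw [e0, e1]; omega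
  have h02 : ¬ (k ∈ cube N (c0 N) ∧ k ∈ cube N (c2 N)) := by rw [e0, e2]; omega
  have h03 : ¬ (k ∈ cube N (c0 N) ∧ k ∈ cube N (c3 N)) := by rw [e0, e3]; omega
  have h12 : ¬ (k ∈ cube N (c1 N) ∧ k ∈ cube N (c2 N)) := by rw [e1, e2]; omega
  have h13 : ¬ (k ∈ cube N (c1 N) ∧ k ∈ cube N (c3 N)) := by rw [e1, e3]; omega
  have h23 : ¬ (k ∈ cube N (c2 N) ∧ k ∈ cube N (c3 N)) := by rw [e2, e3]; omega
  refine ⟨fun h => ?_, fun h => ?_, fun h => ?_, fun h => ?_⟩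
  · have a1 : k ∉ cube N (c1 N) := fun h' => h01 ⟨h, h'⟩
    have a2 : k ∉ cube N (c2 N) := fun h' => h02 ⟨h, h'⟩
    have a3 : k ∉ cube N (c3 N) := fun h' => h03 ⟨h, h'⟩
    exact ⟨by simp [g, ic, h, a1, a2, a3], a1, a2, a3⟩
  · have a1 : k ∉ cube N (c0 N) := fun h' => h01 ⟨h', h⟩
    have a2 : k ∉ cube N (c2 N) := fun h' => h12 ⟨h, h'⟩
    have a3 : k ∉ cube N (c3 N) := fun h' => h13 ⟨h, h'⟩
    exact ⟨by simp [g, ic, h, a1, a2, a3], a1, a2, a3⟩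
  · have a1 : k ∉ cube N (c0 N) := fun h' => h02 ⟨h', h⟩
    have a2 : k ∉ cube N (c1 N) := fun h' => h12 ⟨h', h⟩
    have a3 : k ∉ cube N (c3 N) := fun h' => h23 ⟨h, h'⟩
    exact ⟨by simp [g, ic, h, a1, a2, a3], a1, a2, a3⟩
  · have a1 : k ∉ cube N (c0 N) := fun h' => h03 ⟨h', h⟩
    have a2 : k ∉ cube N (c1 N) := fun h' => h13 ⟨h', h⟩
    have a3 : k ∉ cube N (c2 N) := fun h' => h23 ⟨h', h⟩
    exact ⟨by simp [g, ic, h, a1, a2, a3], a1, a2, a3⟩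

theorem g_le_one {N : ℕ} (hN : 1 ≤ N) (k : Z3) : g N k ≤ 1 := by
  by_cases h : k ∈ Q N
  · rw [mem_Q] at h
    obtain ⟨a, b, c, d⟩ := g_val hN k
    rcases h with (h | h) | (h | h)
    · exact (a h).1.le
    · exact (b h).1.le
    · rw [(c h).1]; norm_num
    · rw [(d h).1]; norm_num
  · rw [g_zero h]; exact zero_le_one

theorem g_sq {N : ℕ} (hN : 1 ≤ N) (k : Z3) : g N k ^ 2 =
    ic N (c0 N) k + ic N (c1 N) k + (ic N (c2 N) k + ic N (c3 N) k) / 4 := by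
  obtain ⟨a, b, c, d⟩ := g_val hN k
  by_cases h : k ∈ Q N
  · rw [mem_Q] at h
    rcases h with (h | h) | (h | h)
    · obtain ⟨e, e1, e2, e3⟩ := a h
      rw [e]; simp [ic, h, e1, e2, e3]
    · obtain ⟨e, e1, e2, e3⟩ := b h
      rw [e]; simp [ic, h, e1, e2, e3]
    · obtain ⟨e, e1, e2, e3⟩ := c h
      rw [e]; simp [ic, h, e1, e2, e3]; norm_num
    · obtain ⟨e, e1, e2, e3⟩ := d h
      rw [e]; simp [ic, h, e1, e2, e3]; norm_num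
  · rw [g_zero h]
    rw [mem_Q] at h
    push Not at h
    simp [ic, h.1.1, h.1.2, h.2.1, h.2.2]

theorem g_neg (N : ℕ) (k : Z3) : g N (-k) = g N k := by
  have e0 : -k ∈ cube N (c0 N) ↔ k ∈ cube N (c1 N) := by
    rw [mem_c0, mem_c1]; simp only [Pi.neg_apply]; omega
  have e1 : -k ∈ cube N (c1 N) ↔ k ∈ cube N (c0 N) := by
    rw [mem_c0, mem_c1]; simp only [Pi.neg_apply]; omega
  have e2 : -k ∈ cube N (c2 N) ↔ k ∈ cube N (c3 N) := by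
    rw [mem_c2, mem_c3]; simp only [Pi.neg_apply]; omega
  have e3 : -k ∈ cube N (c3 N) ↔ k ∈ cube N (c2 N) := by
    rw [mem_c2, mem_c3]; simp only [Pi.neg_apply]; omega
  simp only [g, ic, e0, e1, e2, e3]
  ring

/-- constraints on the support -/
theorem Q_bd {N : ℕ} {k : Z3} (h : k ∈ Q N) :
    (16 * (N : ℤ) ≤ k 0 ∧ k 0 ≤ 22 * N ∨ -(22 * (N : ℤ)) ≤ k 0 ∧ k 0 ≤ -(16 * N)) ∧
    ((-(N : ℤ) ≤ k 1 ∧ k 1 ≤ N ∧ (20 * (N : ℤ) ≤ k 0 ∨ k 0 ≤ -(20 * N))) ∨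
      ((16 * (N : ℤ) ≤ k 1 ∧ k 1 ≤ 18 * N ∨ -(18 * (N : ℤ)) ≤ k 1 ∧ k 1 ≤ -(16 * N)) ∧
        -(18 * (N : ℤ)) ≤ k 0 ∧ k 0 ≤ 18 * N)) ∧
    (-(N : ℤ) ≤ k 2 ∧ k 2 ≤ N) := by
  rw [mem_Q, mem_c0, mem_c1, mem_c2, mem_c3] at h
  omega

theorem sum_ic {N : ℕ} {c : Z3} {S : Finset Z3} (h : cube N c ⊆ S) (F : Z3 → ℝ) :
    ∑ k ∈ S, ic N c k * F k = ∑ k ∈ cube N c, F k := by
  simp only [ic, ite_mul, one_mul, zero_mul]
  rw [← sum_filter]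
  congr 1
  ext k
  simp only [mem_filter]
  exact ⟨fun h' => h'.2, fun h' => ⟨h h', h'⟩⟩

theorem sum_g {N : ℕ} {S : Finset Z3} (h : Q N ⊆ S) (F : Z3 → ℝ) : ∑ k ∈ S, g N k * F k =
    ∑ k ∈ cube N (c0 N), F k + ∑ k ∈ cube N (c1 N), F k +
      (∑ k ∈ cube N (c2 N), F k + ∑ k ∈ cube N (c3 N), F k) / 2 := by
  have h0 : cube N (c0 N) ⊆ S := fun k hk => h (mem_Q.2 (Or.inl (Or.inl hk)))
  have h1 : cube N (c1 N) ⊆ S := fun k hk => h (mem_Q.2 (Or.inl (Or.inr hk)))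
  have h2 : cube N (c2 N) ⊆ S := fun k hk => h (mem_Q.2 (Or.inr (Or.inl hk)))
  have h3 : cube N (c3 N) ⊆ S := fun k hk => h (mem_Q.2 (Or.inr (Or.inr hk)))
  rw [← sum_ic h0, ← sum_ic h1, ← sum_ic h2, ← sum_ic h3, ← sum_add_distrib, ← sum_add_distrib,
    sum_div, ← sum_add_distrib]
  refine sum_congr rfl fun k _ => ?_
  rw [g]; ring

theorem sum_g_sq {N : ℕ} (hN : 1 ≤ N) {S : Finset Z3} (h : Q N ⊆ S) (F : Z3 → ℝ) :
    ∑ k ∈ S, g N k ^ 2 * F k =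
    ∑ k ∈ cube N (c0 N), F k + ∑ k ∈ cube N (c1 N), F k +
      (∑ k ∈ cube N (c2 N), F k + ∑ k ∈ cube N (c3 N), F k) / 4 := by
  have h0 : cube N (c0 N) ⊆ S := fun k hk => h (mem_Q.2 (Or.inl (Or.inl hk)))
  have h1 : cube N (c1 N) ⊆ S := fun k hk => h (mem_Q.2 (Or.inl (Or.inr hk)))
  have h2 : cube N (c2 N) ⊆ S := fun k hk => h (mem_Q.2 (Or.inr (Or.inl hk)))
  have h3 : cube N (c3 N) ⊆ S := fun k hk => h (mem_Q.2 (Or.inr (Or.inr hk)))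
  rw [← sum_ic h0, ← sum_ic h1, ← sum_ic h2, ← sum_ic h3, ← sum_add_distrib, ← sum_add_distrib,
    sum_div, ← sum_add_distrib]
  refine sum_congr rfl fun k _ => ?_
  rw [g_sq hN]; ring

/-- `V N = N² (2 N + 1)³` -/
noncomputable def V (N : ℕ) : ℝ := N ^ 2 * m N ^ 3

theorem sum_g_one {N : ℕ} {S : Finset Z3} (h : Q N ⊆ S) : ∑ k ∈ S, g N k = 3 * m N ^ 3 := by
  have := sum_g h (fun _ => (1 : ℝ))
  simp only [mul_one] at this
  rw [this]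
  simp only [sum_cube_one]
  ring

theorem sum_g_dif {N : ℕ} {S : Finset Z3} (h : Q N ⊆ S) :
    ∑ k ∈ S, g N k * ((k 0 : ℝ) ^ 2 - (k 1 : ℝ) ^ 2) = 882 * V N := by
  rw [sum_g h]
  simp only [sum_sub_distrib, sum_cube_sq0, sum_cube_sq1]
  simp only [c0, c1, c2, c3, Matrix.cons_val_zero, Matrix.cons_val_one, V]
  push_cast
  ring

theorem sum_g_mul {N : ℕ} {S : Finset Z3} (h : Q N ⊆ S) :
    ∑ k ∈ S, g N k * ((k 0 : ℝ) * (k 1 : ℝ)) = 289 * V N := by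
  rw [sum_g h]
  simp only [sum_cube_mul]
  simp only [c0, c1, c2, c3, Matrix.cons_val_zero, Matrix.cons_val_one, V]
  push_cast
  ring

theorem sum_gsq_dif {N : ℕ} (hN : 1 ≤ N) {S : Finset Z3} (h : Q N ⊆ S) :
    ∑ k ∈ S, g N k ^ 2 * ((k 0 : ℝ) ^ 2 - (k 1 : ℝ) ^ 2) = 882 * V N := by
  rw [sum_g_sq hN h]
  simp only [sum_sub_distrib, sum_cube_sq0, sum_cube_sq1]
  simp only [c0, c1, c2, c3, Matrix.cons_val_zero, Matrix.cons_val_one, V]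
  push_cast
  ring

theorem sum_gsq_mul {N : ℕ} (hN : 1 ≤ N) {S : Finset Z3} (h : Q N ⊆ S) :
    ∑ k ∈ S, g N k ^ 2 * ((k 0 : ℝ) * (k 1 : ℝ)) = 289 / 2 * V N := by
  rw [sum_g_sq hN h]
  simp only [sum_cube_mul]
  simp only [c0, c1, c2, c3, Matrix.cons_val_zero, Matrix.cons_val_one, V]
  push_cast
  ring

theorem sum_gsq_nrm {N : ℕ} (hN : 1 ≤ N) {S : Finset Z3} (h : Q N ⊆ S) :
    ∑ k ∈ S, g N k ^ 2 * dt k k = (3518 / 3) * V N + 5 / 3 * N * m N ^ 3 := by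
  have e : ∀ k : Z3, dt k k = (k 0 : ℝ) ^ 2 + (k 1 : ℝ) ^ 2 := by intro k; unfold dt; ring
  simp only [e]
  rw [sum_g_sq hN h]
  simp only [sum_add_distrib, sum_cube_sq0, sum_cube_sq1]
  simp only [c0, c1, c2, c3, Matrix.cons_val_zero, Matrix.cons_val_one, V]
  push_cast
  ring

/-! ### the weight with the small part -/

/-- the small part is at `± hh` -/
def hh (N N' : ℕ) : Z3 := ![21 * N', N' + 10 * N, 0]

theorem hh0 (N N' : ℕ) : hh N N' 0 = 21 * N' := rfl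
theorem hh1 (N N' : ℕ) : hh N N' 1 = N' + 10 * N := rfl
theorem hh2 (N N' : ℕ) : hh N N' 2 = 0 := rfl

/-- the weight with the small part -/
noncomputable def b (N N' : ℕ) (γ : ℝ) (k : Z3) : ℝ :=
  g N k + ((if k = hh N N' then γ else 0) + (if k = -hh N N' then γ else 0))

/-- support of the weight -/
noncomputable def SS (N N' : ℕ) : Finset Z3 := Q N ∪ {hh N N', -hh N N'}

theorem mem_SS {N N' : ℕ} {k : Z3} : k ∈ SS N N' ↔ k ∈ Q N ∨ k = hh N N' ∨ k = -hh N N' := by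
  simp only [SS, mem_union, mem_insert, mem_singleton]

theorem Q_sub (N N' : ℕ) : Q N ⊆ SS N N' := fun _ h => mem_SS.2 (Or.inl h)

theorem mem_of_b {N N' : ℕ} {γ : ℝ} {k : Z3} (h : b N N' γ k ≠ 0) : k ∈ SS N N' := by
  by_contra h1
  rw [mem_SS] at h1
  push Not at h1
  apply h
  simp [b, g_zero h1.1, h1.2.1, h1.2.2]

theorem b_neg (N N' : ℕ) (γ : ℝ) (k : Z3) : b N N' γ (-k) = b N N' γ k := by
  have e1 : -k = hh N N' ↔ k = -hh N N' := neg_eq_iff_eq_neg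
  have e2 : -k = -hh N N' ↔ k = hh N N' := neg_inj
  simp only [b, g_neg, e1, e2]
  ring

theorem b_nonneg {N N' : ℕ} {γ : ℝ} (hγ : 0 ≤ γ) (k : Z3) : 0 ≤ b N N' γ k := by
  have := g_nonneg N k
  unfold b
  split_ifs <;> linarith

section
variable {N N' : ℕ} (hN : 1 ≤ N) (hN' : 2 * N ≤ N')
include hN hN'

theorem hh_notMem : hh N N' ∉ Q N := by
  intro h
  have := (Q_bd h).1
  rw [hh0] at this
  omega

theorem nhh_notMem : -hh N N' ∉ Q N := by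
  intro h
  have := (Q_bd h).1
  rw [Pi.neg_apply, hh0] at this
  omega

theorem hh_ne : hh N N' ≠ -hh N N' := by
  intro h
  have := congrFun h 0
  rw [Pi.neg_apply, hh0] at this
  omega

theorem b_eq_g {γ : ℝ} {k : Z3} (h : k ∈ Q N) : b N N' γ k = g N k := by
  have h1 : k ≠ hh N N' := by rintro rfl; exact hh_notMem hN hN' h
  have h2 : k ≠ -hh N N' := by rintro rfl; exact nhh_notMem hN hN' h
  simp [b, h1, h2]

theorem b_hh (γ : ℝ) : b N N' γ (hh N N') = γ := by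
  simp [b, g_zero (hh_notMem hN hN'), hh_ne hN hN']

theorem b_nhh (γ : ℝ) : b N N' γ (-hh N N') = γ := by rw [b_neg, b_hh hN hN']

theorem b_le_one {γ : ℝ} (hγ : γ ≤ 1) (k : Z3) : b N N' γ k ≤ 1 := by
  by_cases h : k ∈ SS N N'
  · rcases mem_SS.1 h with h | h | h
    · rw [b_eq_g hN hN' h]; exact g_le_one hN k
    · rw [h, b_hh hN hN']; exact hγ
    · rw [h, b_nhh hN hN']; exact hγ
  · by_contra h1
    push Not at h1
    exact h (mem_of_b (γ := γ) (by linarith))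

theorem sum_SS (F : Z3 → ℝ) : ∑ k ∈ SS N N', F k =
    ∑ k ∈ Q N, F k + (F (hh N N') + F (-hh N N')) := by
  rw [SS, sum_union, sum_pair (hh_ne hN hN')]
  rw [disjoint_left]
  intro k hk hk'
  simp only [mem_insert, mem_singleton] at hk'
  rcases hk' with rfl | rfl
  · exact hh_notMem hN hN' hk
  · exact nhh_notMem hN hN' hk

theorem sum_b (γ : ℝ) (F : Z3 → ℝ) : ∑ k ∈ SS N N', b N N' γ k * F k =
    ∑ k ∈ Q N, g N k * F k + γ * (F (hh N N') + F (-hh N N')) := by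
  rw [sum_SS hN hN', b_hh hN hN', b_nhh hN hN']
  congr 1
  · exact sum_congr rfl fun k hk => by rw [b_eq_g hN hN' hk]
  · ring

theorem sum_b_sq (γ : ℝ) (F : Z3 → ℝ) : ∑ k ∈ SS N N', b N N' γ k ^ 2 * F k =
    ∑ k ∈ Q N, g N k ^ 2 * F k + γ ^ 2 * (F (hh N N') + F (-hh N N')) := by
  rw [sum_SS hN hN', b_hh hN hN', b_nhh hN hN']
  congr 1
  · exact sum_congr rfl fun k hk => by rw [b_eq_g hN hN' hk]
  · ring

end

end Pool.Agent.Y155.ND
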