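import Pool.Agent.Y155.ND.TC

/-!
# Supports: the zeros of the interaction table
-/

set_option autoImplicit false
set_option linter.unusedSectionVars false

namespace Pool.Agent.Y155.ND

open Pool.Agent.Y5 Pool.Agent.Y5.D Finset

/-- the scales -/
structure Sc (N : ℕ → ℕ) : Prop where
  one : ∀ n, 1 ≤ N n
  gr : ∀ n, 100000000 * N n ≤ N (n + 1)

section
variable {N : ℕ → ℕ} (hS : Sc N)
include hS

theorem Sc.lt {i j : ℕ} (h : i < j) : 100000000 * N i ≤ N j := by
  induction j with
  | zero => omega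
  | succ j ih =>
    have h1 := hS.gr j
    rcases Nat.lt_succ_iff_lt_or_eq.1 h with h2 | h2
    · have := ih h2
      omega
    · rw [h2]; exact h1

theorem Sc.le {i j : ℕ} (h : i ≤ j) : N i ≤ N j := by
  rcases h.lt_or_eq with h1 | h1
  · have := hS.lt h1
    omega
  · rw [h1]

/-- the support of the packet number `m` -/
theorem SS_bd {m : ℕ} {k : Z3} (h : k ∈ SS (N m) (N (m + 1))) :
    ((16 * (N m : ℤ) ≤ k 0 ∧ k 0 ≤ 22 * N m ∨ -(22 * (N m : ℤ)) ≤ k 0 ∧ k 0 ≤ -(16 * N m)) ∧
      ((-(N m : ℤ) ≤ k 1 ∧ k 1 ≤ N m) ∨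
      ((16 * (N m : ℤ) ≤ k 1 ∧ k 1 ≤ 18 * N m ∨ -(18 * (N m : ℤ)) ≤ k 1 ∧ k 1 ≤ -(16 * N m))))) ∨
    (k 0 = 21 * N (m + 1) ∧ k 1 = N (m + 1) + 10 * N m ∨
      k 0 = -(21 * N (m + 1)) ∧ k 1 = -(N (m + 1) + 10 * N m)) := by
  rcases mem_SS.1 h with h | h | h
  · left
    have := Q_bd h
    refine ⟨this.1, ?_⟩
    rcases this.2.1 with h1 | h1
    · exact Or.inl ⟨h1.1, h1.2.1⟩
    · exact Or.inr h1.1
  · right; left
    rw [h]; exact ⟨rfl, rfl⟩
  · right; right
    rw [h]; exact ⟨rfl, rfl⟩

theorem SS_small {j n : ℕ} (hj : j < n) {q : Z3} (hq : q ∈ SS (N j) (N (j + 1))) :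
    (-(9 * (N n : ℤ)) ≤ q 1 ∧ q 1 ≤ 9 * N n) ∧ -(22 * (N n : ℤ)) ≤ q 0 ∧ q 0 ≤ 22 * N n := by
  have h1 := hS.lt hj
  have h2 := hS.le (Nat.succ_le_of_lt hj)
  have h3 := SS_bd hS hq
  have h4 := hS.one j
  simp only [Nat.succ_eq_add_one] at h2
  omega

/-- no triads in the other cases -/
theorem no_triad {i j n : ℕ} (hj : j < n) (hi : i ≠ n) (hc : ¬(i = j ∧ n = j + 1)) {p q : Z3}
    (hp : p ∈ SS (N i) (N (i + 1))) (hq : q ∈ SS (N j) (N (j + 1)))
    (hk : p + q ∈ SS (N n) (N (n + 1))) : False := by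
  have hqs := SS_small hS hj hq
  have hp' := SS_bd hS hp
  have hq' := SS_bd hS hq
  have hk' := SS_bd hS hk
  simp only [Pi.add_apply] at hk'
  have o1 := hS.one n
  have o2 := hS.one i
  have o3 := hS.one j
  have g1 := hS.gr n
  have g2 := hS.gr i
  have g3 := hS.gr j
  rcases lt_trichotomy i n with hin | hin | hin
  · -- `i < n`
    have hps := SS_small hS hin hp
    rcases hk' with hk' | hk'
    · -- `k` in the main part
      by_cases hi1 : i + 1 = n
      · subst hi1
        have hj1 : j < i := by omega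
        have hqi := SS_small hS hj1 hq
        have l1 := hS.lt hj1
        have l2 := hS.le (Nat.succ_le_of_lt hj1)
        simp only [Nat.succ_eq_add_one] at l2
        omega
      · have hi2 : i + 1 < n := by omega
        have l0 := hS.lt hi2
        by_cases hj1 : j + 1 = n
        · subst hj1
          have hij : i < j := by omega
          have hpj := SS_small hS hij hp
          have l1 := hS.lt hij
          omega
        · have hj2 : j + 1 < n := by omega
          have l1 := hS.lt hj2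
          omega
    · omega
  · exact hi hin
  · -- `n < i`
    have l1 := hS.lt hin
    rcases hk' with hk' | hk'
    · omega
    · by_cases hi1 : i = n + 1
      · subst hi1
        omega
      · have hi2 : n + 1 < i := by omega
        have l2 := hS.lt hi2
        omega

/-- triads `(n, j, n)`, `j < n` -/
theorem triad_B {j n : ℕ} (hj : j < n) {p q : Z3} (hq : q ∈ SS (N j) (N (j + 1)))
    (hp : p ∈ SS (N n) (N (n + 1))) (hk : p + q ∈ SS (N n) (N (n + 1))) :
    p ∈ Q (N n) ∧ p + q ∈ Q (N n) := by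
  have hqs := SS_small hS hj hq
  have hq' := SS_bd hS hq
  have o1 := hS.one n
  have o3 := hS.one j
  have o4 := hS.one (j + 1)
  have g1 := hS.gr n
  have hp' := SS_bd hS hp
  have hk' := SS_bd hS hk
  simp only [Pi.add_apply] at hk'
  constructor
  · rcases mem_SS.1 hp with h | h | h
    · exact h
    · exfalso
      rw [h, hh0] at hk'
      omega
    · exfalso
      rw [h] at hk'
      simp only [Pi.neg_apply, hh0] at hk'
      omega
  · rcases mem_SS.1 hk with h | h | h
    · exact h
    · exfalso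
      have h0 := congrFun h 0
      simp only [Pi.add_apply, hh0] at h0
      omega
    · exfalso
      have h0 := congrFun h 0
      simp only [Pi.add_apply, Pi.neg_apply, hh0] at h0
      omega

/-- triads `(n, n, n + 1)` -/
theorem triad_C {n : ℕ} {p q : Z3} (hp : p ∈ SS (N n) (N (n + 1)))
    (hq : q ∈ SS (N n) (N (n + 1))) (hk : p + q ∈ SS (N (n + 1)) (N (n + 1 + 1))) :
    (p = hh (N n) (N (n + 1)) ∧ q ∈ cube (N n) (c3 (N n))) ∨
    (p = -hh (N n) (N (n + 1)) ∧ -q ∈ cube (N n) (c3 (N n))) ∨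
    (q = hh (N n) (N (n + 1)) ∧ p ∈ cube (N n) (c3 (N n))) ∨
    (q = -hh (N n) (N (n + 1)) ∧ -p ∈ cube (N n) (c3 (N n))) := by
  have o1 := hS.one n
  have g1 := hS.gr n
  have g2 := hS.gr (n + 1)
  have hk' := SS_bd hS hk
  simp only [Pi.add_apply] at hk'
  rw [mem_c3, mem_c3, mem_c3, mem_c3]
  simp only [Pi.neg_apply]
  rcases mem_SS.1 hp with h | h | h
  · have hpb := h
    rw [mem_Q, mem_c0, mem_c1, mem_c2, mem_c3] at hpb
    rcases mem_SS.1 hq with h' | h' | h'
    · exfalso
      have hqb := h'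
      rw [mem_Q, mem_c0, mem_c1, mem_c2, mem_c3] at hqb
      omega
    · right; right; left
      refine ⟨h', ?_⟩
      rw [h', hh0, hh1] at hk'
      omega
    · right; right; right
      refine ⟨h', ?_⟩
      rw [h'] at hk'
      simp only [Pi.neg_apply, hh0, hh1] at hk'
      omega
  · rcases mem_SS.1 hq with h' | h' | h'
    · left
      refine ⟨h, ?_⟩
      have hqb := h'
      rw [mem_Q, mem_c0, mem_c1, mem_c2, mem_c3] at hqb
      rw [h, hh0, hh1] at hk'
      omega
    · exfalso
      rw [h, h', hh0, hh1] at hk'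
      omega
    · exfalso
      rw [h, h'] at hk'
      simp only [Pi.neg_apply, hh0, hh1] at hk'
      omega
  · rcases mem_SS.1 hq with h' | h' | h'
    · right; left
      refine ⟨h, ?_⟩
      have hqb := h'
      rw [mem_Q, mem_c0, mem_c1, mem_c2, mem_c3] at hqb
      rw [h] at hk'
      simp only [Pi.neg_apply, hh0, hh1] at hk'
      omega
    · exfalso
      rw [h, h'] at hk'
      simp only [Pi.neg_apply, hh0, hh1] at hk'
      omega
    · exfalso
      rw [h, h'] at hk'
      simp only [Pi.neg_apply, hh0, hh1] at hk'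
      omega

end

end Pool.Agent.Y155.ND
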