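import Pool.Agent.Y155.ND.TD

/-!
# Shifting a cube
-/

set_option autoImplicit false

namespace Pool.Agent.Y155.ND

open Pool.Agent.Y5 Pool.Agent.Y5.D Finset

theorem sum_cube3 (N : ℕ) (c : Z3) (f : ℤ → ℤ → ℤ → ℝ) : ∑ k ∈ cube N c, f (k 0) (k 1) (k 2) =
    ∑ x ∈ Icc (c 0 - N) (c 0 + N), ∑ y ∈ Icc (c 1 - N) (c 1 + N),
      ∑ z ∈ Icc (c 2 - N) (c 2 + N), f x y z := by
  have h : ∑ k ∈ cube N c, f (k 0) (k 1) (k 2) = ∑ x ∈ Icc (c 0 - N) (c 0 + N) ×ˢ
      (Icc (c 1 - N) (c 1 + N) ×ˢ Icc (c 2 - (N : ℤ)) (c 2 + N)), f x.1 x.2.1 x.2.2 := by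
    refine sum_nbij' (fun k => (k 0, k 1, k 2)) (fun x => ![x.1, x.2.1, x.2.2]) ?_ ?_ ?_ ?_ ?_
    · intro k hk
      simpa only [mem_product, mem_Icc] using mem_cube.1 hk
    · rintro ⟨x, y, z⟩ hx
      rw [mem_cube]
      have h1 := hx
      simp only [mem_product, mem_Icc] at h1
      exact h1
    · intro k _
      ext i
      fin_cases i <;> rfl
    · rintro ⟨x, y, z⟩ _
      rfl
    · intro k _
      rfl
  rw [h, sum_product]
  simp only [sum_product]

/-- leaving the interval -/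
noncomputable def lv (N : ℕ) (c a x : ℤ) : ℝ := if x + a ∈ Icc (c - N) (c + N) then 0 else 1

theorem lv_nonneg (N : ℕ) (c a x : ℤ) : 0 ≤ lv N c a x := by unfold lv; split_ifs <;> norm_num

theorem sum_lv (N : ℕ) (c a : ℤ) : ∑ x ∈ Icc (c - N) (c + N), lv N c a x ≤ |(a : ℝ)| := by
  have h1 : ∑ x ∈ Icc (c - N) (c + N), lv N c a x =
      (((Icc (c - N) (c + N)).filter fun x => ¬ (x + a ∈ Icc (c - N) (c + N))).card : ℝ) := by
    rw [card_eq_sum_ones, sum_filter]
    push_cast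
    refine sum_congr rfl fun x _ => ?_
    unfold lv
    split_ifs <;> simp_all
  rw [h1]
  rcases le_total 0 a with ha | ha
  · have h2 : ((Icc (c - N) (c + N)).filter fun x => ¬ (x + a ∈ Icc (c - N) (c + N))) ⊆
        Ioc (c + N - a) (c + N) := by
      intro x
      simp only [mem_filter, mem_Icc, mem_Ioc]
      omega
    have h3 := card_le_card h2
    rw [Int.card_Ioc] at h3
    have h4 : (c + N - (c + N - a)).toNat = a.toNat := by congr 1; ring
    rw [h4] at h3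
    have h5 : ((a.toNat : ℕ) : ℝ) = |(a : ℝ)| := by
      rw [abs_of_nonneg (by exact_mod_cast ha)]
      exact_mod_cast Int.toNat_of_nonneg ha
    rw [← h5]
    exact_mod_cast h3
  · have h2 : ((Icc (c - N) (c + N)).filter fun x => ¬ (x + a ∈ Icc (c - N) (c + N))) ⊆
        Ico (c - N) (c - N - a) := by
      intro x
      simp only [mem_filter, mem_Icc, mem_Ico]
      omega
    have h3 := card_le_card h2
    rw [Int.card_Ico] at h3
    have h4 : (c - N - a - (c - N)).toNat = (-a).toNat := by congr 1; ring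
    rw [h4] at h3
    have h5 : (((-a).toNat : ℕ) : ℝ) = |(a : ℝ)| := by
      rw [abs_of_nonpos (by exact_mod_cast ha)]
      have : ((-a).toNat : ℤ) = -a := Int.toNat_of_nonneg (by omega)
      exact_mod_cast this
    rw [← h5]
    exact_mod_cast h3

/-- leaving the cube -/
noncomputable def lc (N : ℕ) (c q p : Z3) : ℝ := if p + q ∈ cube N c then 0 else 1

theorem lc_le (N : ℕ) (c q p : Z3) : lc N c q p ≤
    lv N (c 0) (q 0) (p 0) + lv N (c 1) (q 1) (p 1) + lv N (c 2) (q 2) (p 2) := by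
  have h0 := lv_nonneg N (c 0) (q 0) (p 0)
  have h1 := lv_nonneg N (c 1) (q 1) (p 1)
  have h2 := lv_nonneg N (c 2) (q 2) (p 2)
  by_cases h : p + q ∈ cube N c
  · rw [lc, if_pos h]; linarith
  · rw [lc, if_neg h]
    rw [mem_cube] at h
    simp only [Pi.add_apply] at h
    by_cases a0 : p 0 + q 0 ∈ Icc (c 0 - N) (c 0 + N)
    · by_cases a1 : p 1 + q 1 ∈ Icc (c 1 - N) (c 1 + N)
      · by_cases a2 : p 2 + q 2 ∈ Icc (c 2 - N) (c 2 + N)
        · rw [mem_Icc] at a0 a1 a2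
          exact absurd ⟨a0, a1, a2⟩ h
        · have : lv N (c 2) (q 2) (p 2) = 1 := if_neg a2
          linarith
      · have : lv N (c 1) (q 1) (p 1) = 1 := if_neg a1
        linarith
    · have : lv N (c 0) (q 0) (p 0) = 1 := if_neg a0
      linarith

theorem cardI (c : ℤ) (N : ℕ) : ((Icc (c - (N : ℤ)) (c + N)).card : ℝ) = m N := by
  rw [m, ← sum_one c N]; simp

theorem sum_lc (N : ℕ) (c q : Z3) : ∑ p ∈ cube N c, lc N c q p ≤
    (|(q 0 : ℝ)| + |(q 1 : ℝ)| + |(q 2 : ℝ)|) * m N ^ 2 := by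
  refine (sum_le_sum fun p _ => lc_le N c q p).trans ?_
  rw [sum_add_distrib, sum_add_distrib]
  have hm : 0 ≤ m N ^ 2 := by positivity
  have e0 : ∑ p ∈ cube N c, lv N (c 0) (q 0) (p 0) ≤ |(q 0 : ℝ)| * m N ^ 2 := by
    rw [sum_cube3 N c (fun x _ _ => lv N (c 0) (q 0) x)]
    simp only [sum_const, nsmul_eq_mul, cardI, ← mul_sum]
    have := sum_lv N (c 0) (q 0)
    nlinarith
  have e1 : ∑ p ∈ cube N c, lv N (c 1) (q 1) (p 1) ≤ |(q 1 : ℝ)| * m N ^ 2 := by
    rw [sum_cube3 N c (fun _ y _ => lv N (c 1) (q 1) y)]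
    simp only [sum_const, nsmul_eq_mul, cardI, ← mul_sum]
    have := sum_lv N (c 1) (q 1)
    nlinarith
  have e2 : ∑ p ∈ cube N c, lv N (c 2) (q 2) (p 2) ≤ |(q 2 : ℝ)| * m N ^ 2 := by
    rw [sum_cube3 N c (fun _ _ z => lv N (c 2) (q 2) z)]
    simp only [sum_const, nsmul_eq_mul, cardI]
    have := sum_lv N (c 2) (q 2)
    nlinarith
  linarith

/-- the weight changes only if the cube is left -/
theorem g_shift {N : ℕ} (hN : 1 ≤ N) {p : Z3} (q : Z3) (hp : p ∈ Q N) :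
    |g N (p + q) - g N p| ≤ ic N (c0 N) p * lc N (c0 N) q p + ic N (c1 N) p * lc N (c1 N) q p +
      ic N (c2 N) p * lc N (c2 N) q p + ic N (c3 N) p * lc N (c3 N) q p := by
  have hb : |g N (p + q) - g N p| ≤ 1 := by
    rw [abs_le]
    constructor <;> linarith [g_nonneg N p, g_nonneg N (p + q), g_le_one hN p, g_le_one hN (p + q)]
  have hl : ∀ c, 0 ≤ ic N c p * lc N c q p := by
    intro c
    unfold ic lc
    split_ifs <;> norm_num
  have key : ∀ c, p ∈ cube N c → (p + q ∈ cube N c → g N (p + q) = g N p) →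
      |g N (p + q) - g N p| ≤ ic N c p * lc N c q p := by
    intro c hc h
    rw [ic, if_pos hc, one_mul, lc]
    split_ifs with h1
    · rw [h h1, sub_self, abs_zero]
    · exact hb
  have l0 := hl (c0 N)
  have l1 := hl (c1 N)
  have l2 := hl (c2 N)
  have l3 := hl (c3 N)
  obtain ⟨a, b, c, d⟩ := g_val hN p
  obtain ⟨a', b', c', d'⟩ := g_val hN (p + q)
  rw [mem_Q] at hp
  rcases hp with (h | h) | (h | h)
  · have := key (c0 N) h (fun h' => by rw [(a h).1, (a' h').1])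
    linarith
  · have := key (c1 N) h (fun h' => by rw [(b h).1, (b' h').1])
    linarith
  · have := key (c2 N) h (fun h' => by rw [(c h).1, (c' h').1])
    linarith
  · have := key (c3 N) h (fun h' => by rw [(d h).1, (d' h').1])
    linarith

theorem sum_g_shift {N : ℕ} (hN : 1 ≤ N) (q : Z3) : ∑ p ∈ Q N, |g N (p + q) - g N p| ≤
    4 * ((|(q 0 : ℝ)| + |(q 1 : ℝ)| + |(q 2 : ℝ)|) * m N ^ 2) := by
  refine (sum_le_sum fun p hp => g_shift hN q hp).trans ?_
  rw [sum_add_distrib, sum_add_distrib, sum_add_distrib]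
  have h0 : cube N (c0 N) ⊆ Q N := fun k hk => (mem_Q.2 (Or.inl (Or.inl hk)))
  have h1 : cube N (c1 N) ⊆ Q N := fun k hk => (mem_Q.2 (Or.inl (Or.inr hk)))
  have h2 : cube N (c2 N) ⊆ Q N := fun k hk => (mem_Q.2 (Or.inr (Or.inl hk)))
  have h3 : cube N (c3 N) ⊆ Q N := fun k hk => (mem_Q.2 (Or.inr (Or.inr hk)))
  rw [sum_ic h0, sum_ic h1, sum_ic h2, sum_ic h3]
  have a0 := sum_lc N (c0 N) q
  have a1 := sum_lc N (c1 N) q
  have a2 := sum_lc N (c2 N) q
  have a3 := sum_lc N (c3 N) q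
  linarith

end Pool.Agent.Y155.ND
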