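import Pool.Agent.Y155.ND.TE

/-!
# The entries `(n, j, n)`, `j < n`
-/

set_option autoImplicit false

namespace Pool.Agent.Y155.ND

open Pool.Agent.Y5 Pool.Agent.Y5.D Finset

/-- interaction with one mode -/
noncomputable def I1 (N : ℕ) (q : Z3) : ℝ :=
  ∑ p ∈ Q N, g N p * g N (p + q) * (cr p q * dt q (p + q))

/-- its main part -/
noncomputable def M1 (N : ℕ) (q : Z3) : ℝ := ∑ p ∈ Q N, g N p ^ 2 * (cr p q * dt q p)

theorem M1_eq {N : ℕ} (hN : 1 ≤ N) (q : Z3) : M1 N q =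
    882 * V N * ((q 0 : ℝ) * q 1) - 289 / 2 * V N * ((q 0 : ℝ) ^ 2 - (q 1 : ℝ) ^ 2) := by
  have e : ∀ p : Z3, g N p ^ 2 * (cr p q * dt q p) =
      (g N p ^ 2 * ((p 0 : ℝ) ^ 2 - (p 1 : ℝ) ^ 2)) * ((q 0 : ℝ) * q 1) -
      (g N p ^ 2 * ((p 0 : ℝ) * p 1)) * ((q 0 : ℝ) ^ 2 - (q 1 : ℝ) ^ 2) := by
    intro p
    simp only [cr, dt]
    ring
  simp only [M1, e, sum_sub_distrib, ← sum_mul]
  rw [sum_gsq_dif hN (Subset.refl _), sum_gsq_mul hN (Subset.refl _)]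

theorem sum_M1 {N N' : ℕ} (hN : 1 ≤ N) : ∑ q ∈ Q N', g N' q * M1 N q =
    127449 * (V N * V N') := by
  simp only [M1_eq hN]
  have e : ∀ q : Z3, g N' q * (882 * V N * ((q 0 : ℝ) * q 1) -
      289 / 2 * V N * ((q 0 : ℝ) ^ 2 - (q 1 : ℝ) ^ 2)) =
      (882 * V N) * (g N' q * ((q 0 : ℝ) * q 1)) -
        (289 / 2 * V N) * (g N' q * ((q 0 : ℝ) ^ 2 - (q 1 : ℝ) ^ 2)) := by
    intro q; ring
  simp only [e, sum_sub_distrib, ← mul_sum]
  rw [sum_g_mul (Subset.refl _), sum_g_dif (Subset.refl _)]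
  ring

/-- real bounds on the main part of the support -/
theorem Q_abs {N : ℕ} {k : Z3} (h : k ∈ Q N) : |(k 0 : ℝ)| ≤ 22 * N ∧ |(k 1 : ℝ)| ≤ 22 * N ∧
    |(k 2 : ℝ)| ≤ N := by
  have h1 := Q_bd h
  have a0 : -(22 * (N : ℤ)) ≤ k 0 ∧ k 0 ≤ 22 * N := by omega
  have a1 : -(22 * (N : ℤ)) ≤ k 1 ∧ k 1 ≤ 22 * N := by omega
  have a2 : -(N : ℤ) ≤ k 2 ∧ k 2 ≤ N := by omega
  simp only [abs_le]
  refine ⟨⟨?_, ?_⟩, ⟨?_, ?_⟩, ⟨?_, ?_⟩⟩
  · exact_mod_cast a0.1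
  · exact_mod_cast a0.2
  · exact_mod_cast a1.1
  · exact_mod_cast a1.2
  · exact_mod_cast a2.1
  · exact_mod_cast a2.2

theorem abs_cr_le {p q : Z3} {X x : ℝ} (hX : 0 ≤ X) (h0 : |(p 0 : ℝ)| ≤ X)
    (h1 : |(p 1 : ℝ)| ≤ X) (h2 : |(q 0 : ℝ)| ≤ x) (h3 : |(q 1 : ℝ)| ≤ x) :
    |cr p q| ≤ 2 * (X * x) := by
  unfold cr
  refine (abs_sub _ _).trans ?_
  rw [abs_mul, abs_mul]
  have a := mul_le_mul h0 h3 (abs_nonneg _) hX
  have b := mul_le_mul h1 h2 (abs_nonneg _) hX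
  linarith

theorem abs_dt_le {p q : Z3} {X x : ℝ} (hX : 0 ≤ X) (h0 : |(p 0 : ℝ)| ≤ X)
    (h1 : |(p 1 : ℝ)| ≤ X) (h2 : |(q 0 : ℝ)| ≤ x) (h3 : |(q 1 : ℝ)| ≤ x) :
    |dt p q| ≤ 2 * (X * x) := by
  unfold dt
  refine (abs_add_le _ _).trans ?_
  rw [abs_mul, abs_mul]
  have a := mul_le_mul h0 h2 (abs_nonneg _) hX
  have b := mul_le_mul h1 h3 (abs_nonneg _) hX
  linarith

theorem m_pos (N : ℕ) : 0 < m N := by unfold m; positivity

theorem I1_sub {N N' : ℕ} (hN : 1 ≤ N) (hNN : 22 * N' ≤ N) {q : Z3} (hq : q ∈ Q N') :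
    |I1 N q - M1 N q| ≤ 979616 * 180 * N ^ 2 * N' ^ 3 * m N ^ 2 +
      937024 * 3 * N * N' ^ 3 * m N ^ 3 := by
  set X : ℝ := (N : ℝ) with hX
  set x : ℝ := (N' : ℝ) with hx
  have hX0 : 0 ≤ X := by positivity
  have hx0 : 0 ≤ x := by positivity
  have hxX : 22 * x ≤ X := by rw [hX, hx]; exact_mod_cast hNN
  obtain ⟨q0, q1, q2⟩ := Q_abs hq
  have e : I1 N q - M1 N q = ∑ p ∈ Q N, (g N p * (g N (p + q) - g N p) * (cr p q * dt q (p + q)) +
      g N p ^ 2 * (cr p q * dt q q)) := by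
    rw [I1, M1, ← sum_sub_distrib]
    refine sum_congr rfl fun p _ => ?_
    rw [dt_add_right]
    ring
  have hb : ∀ p ∈ Q N, |g N p * (g N (p + q) - g N p) * (cr p q * dt q (p + q)) +
      g N p ^ 2 * (cr p q * dt q q)| ≤
      979616 * X ^ 2 * x ^ 2 * |g N (p + q) - g N p| + 937024 * X * x ^ 3 * g N p := by
    intro p hp
    obtain ⟨p0, p1, p2⟩ := Q_abs hp
    have c1 : |cr p q| ≤ 968 * (X * x) := by
      have := abs_cr_le (by positivity) p0 p1 q0 q1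
      nlinarith
    have c2 : |dt q (p + q)| ≤ 1012 * (X * x) := by
      have s0 : |((p + q) 0 : ℝ)| ≤ 23 * X := by
        rw [Pi.add_apply]; push_cast
        refine (abs_add_le _ _).trans ?_
        linarith
      have s1 : |((p + q) 1 : ℝ)| ≤ 23 * X := by
        rw [Pi.add_apply]; push_cast
        refine (abs_add_le _ _).trans ?_
        linarith
      have := abs_dt_le (by positivity) q0 q1 s0 s1
      nlinarith
    have c3 : |dt q q| ≤ 968 * x ^ 2 := by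
      have := abs_dt_le (by positivity) q0 q1 q0 q1
      nlinarith
    have g0 := g_nonneg N p
    have g1 := g_le_one hN p
    have a1 : |g N p * (g N (p + q) - g N p) * (cr p q * dt q (p + q))| ≤
        979616 * X ^ 2 * x ^ 2 * |g N (p + q) - g N p| := by
      rw [abs_mul, abs_mul, abs_mul, abs_of_nonneg g0]
      have c4 : |cr p q| * |dt q (p + q)| ≤ 968 * (X * x) * (1012 * (X * x)) :=
        mul_le_mul c1 c2 (abs_nonneg _) (by positivity)
      have c5 : g N p * |g N (p + q) - g N p| ≤ 1 * |g N (p + q) - g N p| :=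
        mul_le_mul_of_nonneg_right g1 (abs_nonneg _)
      calc g N p * |g N (p + q) - g N p| * (|cr p q| * |dt q (p + q)|) ≤
          (1 * |g N (p + q) - g N p|) * (968 * (X * x) * (1012 * (X * x))) :=
            mul_le_mul c5 c4 (by positivity) (by positivity)
        _ = 979616 * X ^ 2 * x ^ 2 * |g N (p + q) - g N p| := by ring
    have a2 : |g N p ^ 2 * (cr p q * dt q q)| ≤ 937024 * X * x ^ 3 * g N p := by
      rw [abs_mul, abs_mul, abs_of_nonneg (by positivity : 0 ≤ g N p ^ 2)]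
      have c4 : |cr p q| * |dt q q| ≤ 968 * (X * x) * (968 * x ^ 2) :=
        mul_le_mul c1 c3 (abs_nonneg _) (by positivity)
      have c5 : g N p ^ 2 ≤ g N p := by nlinarith
      calc g N p ^ 2 * (|cr p q| * |dt q q|) ≤ g N p * (968 * (X * x) * (968 * x ^ 2)) :=
            mul_le_mul c5 c4 (by positivity) g0
        _ = 937024 * X * x ^ 3 * g N p := by ring
    exact (abs_add_le _ _).trans (add_le_add a1 a2)
  rw [e]
  refine (abs_sum_le_sum_abs _ _).trans ((sum_le_sum hb).trans ?_)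
  rw [sum_add_distrib, ← mul_sum, ← mul_sum, sum_g_one (Subset.refl _)]
  have s1 := sum_g_shift hN q
  have hm := m_pos N
  have s2 : ∑ p ∈ Q N, |g N (p + q) - g N p| ≤ 180 * x * m N ^ 2 := by
    refine s1.trans ?_
    have : 4 * (|(q 0 : ℝ)| + |(q 1 : ℝ)| + |(q 2 : ℝ)|) ≤ 180 * x := by linarith
    calc 4 * ((|(q 0 : ℝ)| + |(q 1 : ℝ)| + |(q 2 : ℝ)|) * m N ^ 2) =
        4 * (|(q 0 : ℝ)| + |(q 1 : ℝ)| + |(q 2 : ℝ)|) * m N ^ 2 := by ring
      _ ≤ 180 * x * m N ^ 2 := mul_le_mul_of_nonneg_right this (by positivity)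
  have s3 : 979616 * X ^ 2 * x ^ 2 * ∑ p ∈ Q N, |g N (p + q) - g N p| ≤
      979616 * X ^ 2 * x ^ 2 * (180 * x * m N ^ 2) := mul_le_mul_of_nonneg_left s2 (by positivity)
  nlinarith

/-- crude bound, for the small part -/
theorem I1_crude {N : ℕ} (hN : 1 ≤ N) {q : Z3} {y : ℝ} (hy : 0 ≤ y) (h0 : |(q 0 : ℝ)| ≤ 21 * y)
    (h1 : |(q 1 : ℝ)| ≤ 21 * y) : |I1 N q| ≤ 2561328 * (V N * y ^ 2) := by
  set X : ℝ := (N : ℝ) with hX
  have hX0 : 0 ≤ X := by positivity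
  have hm := m_pos N
  have hb : ∀ p ∈ Q N, |g N p * g N (p + q) * (cr p q * dt q (p + q))| ≤
      853776 * X ^ 2 * y ^ 2 * g N p := by
    intro p hp
    obtain ⟨p0, p1, p2⟩ := Q_abs hp
    have g0 := g_nonneg N p
    by_cases hpq : p + q ∈ Q N
    · obtain ⟨s0, s1, s2⟩ := Q_abs hpq
      have c1 : |cr p q| ≤ 924 * (X * y) := by
        have := abs_cr_le (by positivity) p0 p1 h0 h1
        nlinarith
      have c2 : |dt q (p + q)| ≤ 924 * (X * y) := by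
        have := abs_dt_le (by positivity) h0 h1 s0 s1
        nlinarith
      have g2 := g_nonneg N (p + q)
      have g1 := g_le_one hN (p + q)
      rw [abs_mul, abs_mul, abs_mul, abs_of_nonneg g0, abs_of_nonneg g2]
      have c4 : |cr p q| * |dt q (p + q)| ≤ 924 * (X * y) * (924 * (X * y)) :=
        mul_le_mul c1 c2 (abs_nonneg _) (by positivity)
      calc g N p * g N (p + q) * (|cr p q| * |dt q (p + q)|) ≤
          (g N p * 1) * (924 * (X * y) * (924 * (X * y))) :=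
            mul_le_mul (mul_le_mul_of_nonneg_left g1 g0) c4 (by positivity) (by positivity)
        _ = 853776 * X ^ 2 * y ^ 2 * g N p := by ring
    · rw [g_zero hpq, mul_zero, zero_mul, abs_zero]
      positivity
  rw [I1]
  refine (abs_sum_le_sum_abs _ _).trans ((sum_le_sum hb).trans ?_)
  rw [← mul_sum, sum_g_one (Subset.refl _), V]
  nlinarith

end Pool.Agent.Y155.ND
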