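import Pool.Agent.Y155.ND.TF

/-!
# The entries `(n, j, n)`, `j < n`: the estimate
-/

set_option autoImplicit false

namespace Pool.Agent.Y155.ND

open Pool.Agent.Y5 Pool.Agent.Y5.D Finset

/-- the weight of the packet number `n` -/
noncomputable def bb (N : ℕ → ℕ) (γ : ℕ → ℝ) (n : ℕ) : Z3 → ℝ := b (N n) (N (n + 1)) (γ n)

theorem bb_neg (N : ℕ → ℕ) (γ : ℕ → ℝ) (n : ℕ) (k : Z3) : bb N γ n (-k) = bb N γ n k :=
  b_neg _ _ _ _

theorem mem_of_bb {N : ℕ → ℕ} {γ : ℕ → ℝ} {n : ℕ} {k : Z3} (h : bb N γ n k ≠ 0) :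
    k ∈ SS (N n) (N (n + 1)) := mem_of_b h

theorem V_one {N : ℕ} (hN : 1 ≤ N) : 1 ≤ V N := by
  have h1 : (1 : ℝ) ≤ N := by exact_mod_cast hN
  have h2 : 1 ≤ m N := by unfold m; linarith
  have h3 : 1 ≤ m N ^ 3 := one_le_pow₀ h2
  unfold V
  nlinarith

section
variable {N : ℕ → ℕ} (hS : Sc N) (γ : ℕ → ℝ)
include hS

theorem Sc.two (n : ℕ) : 2 * N n ≤ N (n + 1) := by
  have := hS.gr n
  omega

theorem tri_B_eq {j n : ℕ} (hj : j < n) : tri (bb N γ n) (bb N γ j) (bb N γ n) =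
    ∑ q ∈ Q (N j), g (N j) q * I1 (N n) q +
      γ j * (I1 (N n) (hh (N j) (N (j + 1))) + I1 (N n) (-hh (N j) (N (j + 1)))) := by
  have o1 := hS.one n
  have o2 := hS.two n
  have o3 := hS.one j
  have o4 := hS.two j
  rw [tri_eq_sum (A := SS (N n) (N (n + 1))) (B := SS (N j) (N (j + 1)))
    (fun k hk => mem_of_bb hk) (fun k hk => mem_of_bb hk), sum_comm]
  rw [← sum_b o3 o4]
  refine sum_congr rfl fun q hq => ?_
  have hz : ∀ p ∈ SS (N n) (N (n + 1)), p ∉ Q (N n) → tm (bb N γ n) (bb N γ j) (bb N γ n) p q = 0 := by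
    intro p hp hpQ
    rw [tm]
    have : bb N γ n (p + q) = 0 := by
      by_contra h
      exact hpQ (triad_B hS hj hq hp (mem_of_bb h)).1
    rw [this]; ring
  rw [sum_SS o1 o2, hz _ (mem_SS.2 (Or.inr (Or.inl rfl))) (hh_notMem o1 o2),
    hz _ (mem_SS.2 (Or.inr (Or.inr rfl))) (nhh_notMem o1 o2), add_zero, add_zero, I1, mul_sum]
  refine sum_congr rfl fun p hp => ?_
  have h1 : bb N γ n p = g (N n) p := b_eq_g o1 o2 hp
  have h2 : bb N γ n (p + q) = g (N n) (p + q) := by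
    by_cases h : p + q ∈ Q (N n)
    · exact b_eq_g o1 o2 h
    · rw [g_zero h]
      by_contra h'
      exact h (triad_B hS hj hq (Q_sub _ _ hp) (mem_of_bb h')).2
  rw [tm, h1, h2]
  change g (N n) p * b (N j) (N (j + 1)) (γ j) q * g (N n) (p + q) * _ = _
  ring

theorem tri_B_est {j n : ℕ} (hj : j < n) (hγ0 : 0 ≤ γ j)
    (hγ : 5122656 * (γ j * (N (j + 1) : ℝ) ^ 2) ≤ 1) :
    |tri (bb N γ n) (bb N γ j) (bb N γ n) - 127449 * (V (N n) * V (N j))| ≤
      4 * (V (N n) * V (N j)) := by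
  have o1 := hS.one n
  have o3 := hS.one j
  have hlt := hS.lt hj
  set X : ℝ := (N n : ℝ) with hX
  set x : ℝ := (N j : ℝ) with hx
  set y : ℝ := (N (j + 1) : ℝ) with hy
  have hX1 : 1 ≤ X := by rw [hX]; exact_mod_cast o1
  have hx1 : 1 ≤ x := by rw [hx]; exact_mod_cast o3
  have hxX : 100000000 * x ≤ X := by rw [hX, hx]; exact_mod_cast hlt
  have hxy : 100000000 * x ≤ y := by rw [hy, hx]; exact_mod_cast hS.gr j
  have hV1 := V_one o1
  have hV3 := V_one o3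
  have hm1 := m_pos (N n)
  have hm3 := m_pos (N j)
  rw [tri_B_eq hS γ hj]
  -- the small part
  have e1 : |I1 (N n) (hh (N j) (N (j + 1)))| ≤ 2561328 * (V (N n) * y ^ 2) := by
    apply I1_crude o1 (by positivity)
    · rw [hh0]; push_cast
      rw [abs_of_nonneg (by positivity)]
    · rw [hh1]; push_cast
      rw [abs_of_nonneg (by positivity)]
      linarith
  have e2 : |I1 (N n) (-hh (N j) (N (j + 1)))| ≤ 2561328 * (V (N n) * y ^ 2) := by
    apply I1_crude o1 (by positivity)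
    · rw [Pi.neg_apply, hh0]; push_cast
      rw [abs_neg, abs_of_nonneg (by positivity)]
    · rw [Pi.neg_apply, hh1]; push_cast
      rw [abs_neg, abs_of_nonneg (by positivity)]
      linarith
  have e3 : |γ j * (I1 (N n) (hh (N j) (N (j + 1))) + I1 (N n) (-hh (N j) (N (j + 1))))| ≤
      V (N n) * V (N j) := by
    rw [abs_mul, abs_of_nonneg hγ0]
    have a1 : |I1 (N n) (hh (N j) (N (j + 1))) + I1 (N n) (-hh (N j) (N (j + 1)))| ≤
        5122656 * (V (N n) * y ^ 2) := by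
      refine (abs_add_le _ _).trans ?_
      linarith
    calc γ j * |I1 (N n) (hh (N j) (N (j + 1))) + I1 (N n) (-hh (N j) (N (j + 1)))| ≤
        γ j * (5122656 * (V (N n) * y ^ 2)) := mul_le_mul_of_nonneg_left a1 hγ0
      _ = V (N n) * (5122656 * (γ j * y ^ 2)) := by ring
      _ ≤ V (N n) * V (N j) := mul_le_mul_of_nonneg_left (hγ.trans hV3) (by linarith)
  -- the main part
  have e4 : |∑ q ∈ Q (N j), g (N j) q * I1 (N n) q - 127449 * (V (N n) * V (N j))| ≤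
      3 * m (N j) ^ 3 * (979616 * 180 * X ^ 2 * x ^ 3 * m (N n) ^ 2 +
      937024 * 3 * X * x ^ 3 * m (N n) ^ 3) := by
    rw [← sum_M1 (N' := N j) o1, ← sum_sub_distrib]
    refine (abs_sum_le_sum_abs _ _).trans ?_
    have : ∀ q ∈ Q (N j), |g (N j) q * I1 (N n) q - g (N j) q * M1 (N n) q| ≤
        (979616 * 180 * X ^ 2 * x ^ 3 * m (N n) ^ 2 +
        937024 * 3 * X * x ^ 3 * m (N n) ^ 3) * g (N j) q := by
      intro q hq
      have g0 := g_nonneg (N j) q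
      rw [← mul_sub, abs_mul, abs_of_nonneg g0, mul_comm]
      exact mul_le_mul_of_nonneg_right (I1_sub o1 (by omega) hq) g0
    refine (sum_le_sum this).trans ?_
    rw [← mul_sum, sum_g_one (Subset.refl _)]
    exact le_of_eq (by ring)
  have e5 : 3 * m (N j) ^ 3 * (979616 * 180 * X ^ 2 * x ^ 3 * m (N n) ^ 2 +
      937024 * 3 * X * x ^ 3 * m (N n) ^ 3) ≤ 3 * (V (N n) * V (N j)) := by
    have hmX : m (N n) = 2 * X + 1 := rfl
    have f1 : 979616 * 180 * x ≤ 9 / 10 * m (N n) := by rw [hmX]; linarith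
    have f2 : 937024 * 3 * x ≤ 1 / 10 * X := by linarith
    have f3 : 979616 * 180 * X ^ 2 * x ^ 3 * m (N n) ^ 2 ≤
        9 / 10 * (X ^ 2 * m (N n) ^ 3 * x ^ 2) := by
      calc 979616 * 180 * X ^ 2 * x ^ 3 * m (N n) ^ 2 =
          (979616 * 180 * x) * (X ^ 2 * x ^ 2 * m (N n) ^ 2) := by ring
        _ ≤ (9 / 10 * m (N n)) * (X ^ 2 * x ^ 2 * m (N n) ^ 2) :=
            mul_le_mul_of_nonneg_right f1 (by positivity)
        _ = _ := by ring
    have f4 : 937024 * 3 * X * x ^ 3 * m (N n) ^ 3 ≤ 1 / 10 * (X ^ 2 * m (N n) ^ 3 * x ^ 2) := by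
      calc 937024 * 3 * X * x ^ 3 * m (N n) ^ 3 = (937024 * 3 * x) * (X * x ^ 2 * m (N n) ^ 3) := by
            ring
        _ ≤ (1 / 10 * X) * (X * x ^ 2 * m (N n) ^ 3) :=
            mul_le_mul_of_nonneg_right f2 (by positivity)
        _ = _ := by ring
    calc 3 * m (N j) ^ 3 * (979616 * 180 * X ^ 2 * x ^ 3 * m (N n) ^ 2 +
        937024 * 3 * X * x ^ 3 * m (N n) ^ 3) ≤
        3 * m (N j) ^ 3 * (9 / 10 * (X ^ 2 * m (N n) ^ 3 * x ^ 2) +
          1 / 10 * (X ^ 2 * m (N n) ^ 3 * x ^ 2)) :=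
          mul_le_mul_of_nonneg_left (add_le_add f3 f4) (by positivity)
      _ = 3 * (V (N n) * V (N j)) := by rw [V, V]; ring
  rw [abs_le] at e3 e4 ⊢
  have hVV : 0 ≤ V (N n) * V (N j) := by positivity
  constructor <;> linarith [e3.1, e3.2, e4.1, e4.2]

end

end Pool.Agent.Y155.ND
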