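import Pool.Agent.Y155.ND.TG

/-!
# The entries `(n, n, n + 1)`, and the zeros
-/

set_option autoImplicit false
set_option linter.unusedSectionVars false

namespace Pool.Agent.Y155.ND

open Pool.Agent.Y5 Pool.Agent.Y5.D Finset

theorem tm_neg {a b d : Z3 → ℝ} (ha : ∀ k, a (-k) = a k) (hb : ∀ k, b (-k) = b k)
    (hd : ∀ k, d (-k) = d k) (p q : Z3) : tm a b d (-p) (-q) = tm a b d p q := by
  have e : -p + -q = -(p + q) := by abel
  rw [tm, tm, ha, hb, e, hd, cr_neg_left, cr_neg_right, dt_neg_left, dt_neg_right]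
  ring

section
variable {N : ℕ → ℕ} (hS : Sc N) (γ : ℕ → ℝ)
include hS

theorem tri_zero {i j n : ℕ} (hj : j < n) (hi : i ≠ n) (hc : ¬(i = j ∧ n = j + 1)) :
    tri (bb N γ i) (bb N γ j) (bb N γ n) = 0 := by
  rw [tri_eq_sum (A := SS (N i) (N (i + 1))) (B := SS (N j) (N (j + 1)))
    (fun k hk => mem_of_bb hk) (fun k hk => mem_of_bb hk)]
  refine sum_eq_zero fun p hp => sum_eq_zero fun q hq => ?_
  have : bb N γ n (p + q) = 0 := by
    by_contra h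
    exact no_triad hS hj hi hc hp hq (mem_of_bb h)
  rw [tm, this]; ring

theorem c3_sub (n : ℕ) : cube (N n) (c3 (N n)) ⊆ Q (N n) :=
  fun _ hk => mem_Q.2 (Or.inr (Or.inr hk))

theorem c2_sub (n : ℕ) : cube (N n) (c2 (N n)) ⊆ Q (N n) :=
  fun _ hk => mem_Q.2 (Or.inr (Or.inl hk))

theorem neg_mem_c3 {N : ℕ} {k : Z3} : -k ∈ cube N (c3 N) ↔ k ∈ cube N (c2 N) := by
  rw [mem_c2, mem_c3]; simp only [Pi.neg_apply]; omega

theorem tri_C_eq (n : ℕ) : tri (bb N γ n) (bb N γ n) (bb N γ (n + 1)) =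
    γ n * ∑ r ∈ cube (N n) (c3 (N n)), cr r (hh (N n) (N (n + 1))) *
      (dt (hh (N n) (N (n + 1))) (hh (N n) (N (n + 1))) - dt r r) := by
  have o1 := hS.one n
  have o2 := hS.two n
  have o3 := hS.one (n + 1)
  have o4 := hS.two (n + 1)
  set h := hh (N n) (N (n + 1)) with hh'
  set F := tm (bb N γ n) (bb N γ n) (bb N γ (n + 1)) with hF
  have hnQ : h ∉ Q (N n) := hh_notMem o1 o2
  have hnQ' : -h ∉ Q (N n) := nhh_notMem o1 o2
  have hhS : h ∈ SS (N n) (N (n + 1)) := mem_SS.2 (Or.inr (Or.inl rfl))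
  have hhS' : -h ∈ SS (N n) (N (n + 1)) := mem_SS.2 (Or.inr (Or.inr rfl))
  have hhne : h ≠ -h := hh_ne o1 o2
  -- where `F` vanishes
  have hz : ∀ p ∈ SS (N n) (N (n + 1)), ∀ q ∈ SS (N n) (N (n + 1)),
      ¬ ((p = h ∧ q ∈ cube (N n) (c3 (N n))) ∨ (p = -h ∧ -q ∈ cube (N n) (c3 (N n))) ∨
        (q = h ∧ p ∈ cube (N n) (c3 (N n))) ∨ (q = -h ∧ -p ∈ cube (N n) (c3 (N n)))) →
      F p q = 0 := by
    intro p hp q hq hn
    have : bb N γ (n + 1) (p + q) = 0 := by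
      by_contra h'
      exact hn (triad_C hS hp hq (mem_of_bb h'))
    rw [hF, tm, this]; ring
  have hsym : ∀ p q, F (-p) (-q) = F p q := fun p q => tm_neg (bb_neg _ _ _) (bb_neg _ _ _) (bb_neg _ _ _) p q
  have hQne : ∀ {k : Z3}, k ∈ Q (N n) → k ≠ h ∧ k ≠ -h := fun hk =>
    ⟨fun e => hnQ (e ▸ hk), fun e => hnQ' (e ▸ hk)⟩
  have z1 : ∀ p ∈ Q (N n), ∀ q ∈ Q (N n), F p q = 0 := by
    intro p hp q hq
    apply hz p (Q_sub _ _ hp) q (Q_sub _ _ hq)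
    rintro (⟨e, -⟩ | ⟨e, -⟩ | ⟨e, -⟩ | ⟨e, -⟩)
    · exact (hQne hp).1 e
    · exact (hQne hp).2 e
    · exact (hQne hq).1 e
    · exact (hQne hq).2 e
  have nc3 : h ∉ cube (N n) (c3 (N n)) := fun e => hnQ (c3_sub hS n e)
  have nc3' : -h ∉ cube (N n) (c3 (N n)) := fun e => hnQ' (c3_sub hS n e)
  have z2 : F h h = 0 := by
    apply hz h hhS h hhS
    rintro (⟨-, e⟩ | ⟨e, -⟩ | ⟨-, e⟩ | ⟨e, -⟩)
    · exact nc3 e
    · exact hhne e
    · exact nc3 e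
    · exact hhne e
  have z3 : F h (-h) = 0 := by
    apply hz h hhS (-h) hhS'
    rintro (⟨-, e⟩ | ⟨e, -⟩ | ⟨e, -⟩ | ⟨-, e⟩)
    · exact nc3' e
    · exact hhne e
    · exact hhne e.symm
    · exact nc3' e
  have z4 : F (-h) h = 0 := by
    have := hsym h (-h)
    rw [neg_neg] at this
    rw [this, z3]
  have z5 : F (-h) (-h) = 0 := by rw [hsym, z2]
  -- sums over the cubes
  have s1 : ∑ p ∈ Q (N n), F p h = ∑ p ∈ cube (N n) (c3 (N n)), F p h := by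
    symm
    apply sum_subset (c3_sub hS n)
    intro p hp hp'
    apply hz p (Q_sub _ _ hp) h hhS
    rintro (⟨e, -⟩ | ⟨e, -⟩ | ⟨-, e⟩ | ⟨e, -⟩)
    · exact (hQne hp).1 e
    · exact (hQne hp).2 e
    · exact hp' e
    · exact hhne e
  have s2 : ∑ q ∈ Q (N n), F h q = ∑ q ∈ cube (N n) (c3 (N n)), F h q := by
    symm
    apply sum_subset (c3_sub hS n)
    intro p hp hp'
    apply hz h hhS p (Q_sub _ _ hp)
    rintro (⟨-, e⟩ | ⟨e, -⟩ | ⟨e, -⟩ | ⟨e, -⟩)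
    · exact hp' e
    · exact hhne e
    · exact (hQne hp).1 e
    · exact (hQne hp).2 e
  have negQ : ∀ k, k ∈ Q (N n) ↔ -k ∈ Q (N n) := by
    intro k
    rw [mem_Q, mem_Q, mem_c0, mem_c1, mem_c2, mem_c3, mem_c0, mem_c1, mem_c2, mem_c3]
    simp only [Pi.neg_apply]
    omega
  have s3 : ∑ p ∈ Q (N n), F p (-h) = ∑ p ∈ Q (N n), F p h := by
    refine sum_nbij' (fun p => -p) (fun p => -p) (fun p hp => (negQ p).1 hp)
      (fun p hp => (negQ p).1 hp) (fun p _ => neg_neg p) (fun p _ => neg_neg p) fun p _ => ?_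
    rw [← hsym p (-h), neg_neg]
  have s4 : ∑ q ∈ Q (N n), F (-h) q = ∑ q ∈ Q (N n), F h q := by
    refine sum_nbij' (fun p => -p) (fun p => -p) (fun p hp => (negQ p).1 hp)
      (fun p hp => (negQ p).1 hp) (fun p _ => neg_neg p) (fun p _ => neg_neg p) fun p _ => ?_
    rw [← hsym (-h) p, neg_neg]
  -- values
  have hval : ∀ r ∈ cube (N n) (c3 (N n)), F r h + F h r =
      γ n / 2 * (cr r h * (dt h h - dt r r)) := by
    intro r hr
    have v1 : bb N γ n r = 1 / 2 := by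
      rw [bb, b_eq_g o1 o2 (c3_sub hS n hr)]
      exact ((g_val o1 r).2.2.2 hr).1
    have v2 : bb N γ n h = γ n := b_hh o1 o2 _
    have hin : r + h ∈ cube (N (n + 1)) (c0 (N (n + 1))) := by
      rw [mem_c0]
      rw [mem_c3] at hr
      have g1 := hS.gr n
      simp only [Pi.add_apply, hh', hh0, hh1, hh2]
      omega
    have v3 : bb N γ (n + 1) (r + h) = 1 := by
      rw [bb, b_eq_g o3 o4 (mem_Q.2 (Or.inl (Or.inl hin)))]
      exact ((g_val o3 _).1 hin).1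
    have v4 : bb N γ (n + 1) (h + r) = 1 := by rw [add_comm h r, v3]
    rw [hF, tm, tm, v1, v2, v3, v4, dt_add_right, dt_add_right, cr_comm h r, dt_comm h r]
    ring
  rw [tri_eq_sum (A := SS (N n) (N (n + 1))) (B := SS (N n) (N (n + 1)))
    (fun k hk => mem_of_bb hk) (fun k hk => mem_of_bb hk)]
  have e1 : ∑ p ∈ SS (N n) (N (n + 1)), ∑ q ∈ SS (N n) (N (n + 1)), F p q =
      2 * ∑ r ∈ cube (N n) (c3 (N n)), (F r h + F h r) := by
    rw [sum_SS o1 o2]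
    simp only [sum_SS o1 o2]
    rw [← hh', z2, z3, z4, z5, sum_add_distrib, sum_add_distrib,
      sum_eq_zero (fun p hp => sum_eq_zero fun q hq => z1 p hp q hq), s3, s4, s1, s2,
      sum_add_distrib]
    ring
  rw [e1, sum_congr rfl hval, ← mul_sum]
  ring

theorem tri_C_est (n : ℕ) (hγ : 0 ≤ γ n) :
    γ n ≤ tri (bb N γ n) (bb N γ n) (bb N γ (n + 1)) ∧
    tri (bb N γ n) (bb N γ n) (bb N γ (n + 1)) ≤
      γ n * (6000000 * (N n : ℝ) ^ 4 * (N (n + 1) : ℝ) ^ 3) := by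
  have o1 := hS.one n
  have g1 := hS.gr n
  rw [tri_C_eq hS]
  set x : ℝ := (N n : ℝ) with hx
  set y : ℝ := (N (n + 1) : ℝ) with hy
  have hx1 : 1 ≤ x := by rw [hx]; exact_mod_cast o1
  have hxy : 100000000 * x ≤ y := by rw [hx, hy]; exact_mod_cast g1
  have hb : ∀ r ∈ cube (N n) (c3 (N n)), 1 ≤ cr r (hh (N n) (N (n + 1))) *
      (dt (hh (N n) (N (n + 1))) (hh (N n) (N (n + 1))) - dt r r) ∧
      cr r (hh (N n) (N (n + 1))) *
      (dt (hh (N n) (N (n + 1))) (hh (N n) (N (n + 1))) - dt r r) ≤ 212436 * (x * y ^ 3) := by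
    intro r hr
    rw [mem_c3] at hr
    obtain ⟨⟨a1, a2⟩, ⟨a3, a4⟩, -⟩ := hr
    have b1 : -(18 * x) ≤ (r 0 : ℝ) := by rw [hx]; exact_mod_cast a1
    have b2 : (r 0 : ℝ) ≤ -(16 * x) := by rw [hx]; exact_mod_cast a2
    have b3 : -(18 * x) ≤ (r 1 : ℝ) := by rw [hx]; exact_mod_cast a3
    have b4 : (r 1 : ℝ) ≤ -(16 * x) := by rw [hx]; exact_mod_cast a4
    have e0 : ((hh (N n) (N (n + 1)) 0 : ℤ) : ℝ) = 21 * y := by rw [hh0, hy]; push_cast; ring
    have e1 : ((hh (N n) (N (n + 1)) 1 : ℤ) : ℝ) = y + 10 * x := by rw [hh1, hx, hy]; push_cast; ring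
    have c1 : cr r (hh (N n) (N (n + 1))) = r 0 * (y + 10 * x) - r 1 * (21 * y) := by
      rw [cr, e0, e1]
    have c2 : dt (hh (N n) (N (n + 1))) (hh (N n) (N (n + 1))) - dt r r =
        441 * y ^ 2 + (y + 10 * x) ^ 2 - ((r 0 : ℝ) ^ 2 + (r 1 : ℝ) ^ 2) := by
      rw [dt, dt, e0, e1]; ring
    have d1 : 1 ≤ cr r (hh (N n) (N (n + 1))) := by rw [c1]; nlinarith
    have d2 : cr r (hh (N n) (N (n + 1))) ≤ 378 * (x * y) := by rw [c1]; nlinarith
    have q0 : (r 0 : ℝ) ^ 2 ≤ 324 * x ^ 2 := by nlinarith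
    have q1 : (r 1 : ℝ) ^ 2 ≤ 324 * x ^ 2 := by nlinarith
    have d3 : 1 ≤ dt (hh (N n) (N (n + 1))) (hh (N n) (N (n + 1))) - dt r r := by
      rw [c2]; nlinarith
    have d4 : dt (hh (N n) (N (n + 1))) (hh (N n) (N (n + 1))) - dt r r ≤ 562 * y ^ 2 := by
      rw [c2]; nlinarith [sq_nonneg (r 0 : ℝ), sq_nonneg (r 1 : ℝ)]
    constructor
    · nlinarith
    · calc _ ≤ (378 * (x * y)) * (562 * y ^ 2) := mul_le_mul d2 d4 (by linarith) (by positivity)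
        _ = 212436 * (x * y ^ 3) := by ring
  have hm : m (N n) = 2 * x + 1 := rfl
  constructor
  · have h1 : (1 : ℝ) ≤ ∑ r ∈ cube (N n) (c3 (N n)), cr r (hh (N n) (N (n + 1))) *
        (dt (hh (N n) (N (n + 1))) (hh (N n) (N (n + 1))) - dt r r) := by
      refine le_trans ?_ (sum_le_sum fun r hr => (hb r hr).1)
      rw [sum_cube_one, hm]
      exact one_le_pow₀ (by linarith)
    nlinarith
  · refine mul_le_mul_of_nonneg_left ?_ hγ
    refine (sum_le_card_nsmul _ _ _ fun r hr => (hb r hr).2).trans ?_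
    rw [nsmul_eq_mul, card_cube, hm]
    have h1 : (2 * x + 1) ^ 3 ≤ 27 * x ^ 3 := by
      have : (2 * x + 1) ^ 3 ≤ (3 * x) ^ 3 := pow_le_pow_left₀ (by linarith) (by linarith) 3
      calc _ ≤ _ := this
        _ = _ := by ring
    calc (2 * x + 1) ^ 3 * (212436 * (x * y ^ 3)) ≤ (27 * x ^ 3) * (212436 * (x * y ^ 3)) :=
          mul_le_mul_of_nonneg_right h1 (by positivity)
      _ = 5735772 * x ^ 4 * y ^ 3 := by ring
      _ ≤ 6000000 * x ^ 4 * y ^ 3 := by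
          have : 0 ≤ x ^ 4 * y ^ 3 := by positivity
          nlinarith

end

end Pool.Agent.Y155.ND
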