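import Pool.Agent.Y155.ND.TH

/-!
# Normalisation of the packets
-/

set_option autoImplicit false
set_option linter.unusedSectionVars false

namespace Pool.Agent.Y155.ND

open Pool.Agent.Y5 Pool.Agent.Y5.D Finset

/-- the scales and the small parameters -/
structure Dat (N : ℕ → ℕ) (γ : ℕ → ℝ) : Prop where
  sc : Sc N
  big : ∀ n, 100000000 ≤ N n
  pos : ∀ n, 0 < γ n
  le : ∀ n, γ n * (20 * (N (n + 1) : ℝ)) ^ 20 ≤ 1

/-- the square of the norm before the normalisation -/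
noncomputable def ZZ (N : ℕ → ℕ) (γ : ℕ → ℝ) (n : ℕ) : ℝ :=
  ∑ k ∈ SS (N n) (N (n + 1)), bb N γ n k ^ 2 * dt k k

/-- the normalising factor -/
noncomputable def cc (N : ℕ → ℕ) (γ : ℕ → ℝ) (n : ℕ) : ℝ := (√(ZZ N γ n))⁻¹

/-- the packets -/
noncomputable def PP (N : ℕ → ℕ) (γ : ℕ → ℝ) (n : ℕ) : Fam := fam (fun k => cc N γ n * bb N γ n k)

section
variable {N : ℕ → ℕ} {γ : ℕ → ℝ} (hD : Dat N γ)
include hD

theorem Dat.nr (n : ℕ) : (100000000 : ℝ) ≤ N n := by exact_mod_cast hD.big n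

theorem Dat.gr (n : ℕ) : 100000000 * (N n : ℝ) ≤ N (n + 1) := by exact_mod_cast hD.sc.gr n

/-- smallness of `γ` -/
theorem Dat.sm (n : ℕ) : γ n * (N (n + 1) : ℝ) ^ 10 ≤ 1 / 10 ^ 12 := by
  set y : ℝ := (N (n + 1) : ℝ) with hy
  have hy8 : (100000000 : ℝ) ≤ y := hD.nr (n + 1)
  have h1 := hD.le n
  have h2 := hD.pos n
  have h3 : (20 * y) ^ 20 = 20 ^ 20 * y ^ 10 * y ^ 10 := by ring
  have h4 : (1 : ℝ) ≤ y ^ 10 := one_le_pow₀ (by linarith)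
  have h5 : γ n * y ^ 10 * 10 ^ 12 ≤ γ n * (20 * y) ^ 20 := by
    rw [h3]
    have h6 : (0 : ℝ) < γ n * y ^ 10 := by positivity
    have h7 : (10 : ℝ) ^ 12 ≤ 20 ^ 20 * y ^ 10 := by
      have : (10 : ℝ) ^ 12 ≤ 20 ^ 20 := by norm_num
      nlinarith
    calc γ n * y ^ 10 * 10 ^ 12 ≤ γ n * y ^ 10 * (20 ^ 20 * y ^ 10) :=
          mul_le_mul_of_nonneg_left h7 h6.le
      _ = _ := by ring
  rw [le_div_iff₀ (by positivity)]
  linarith

theorem Dat.sm4 (n : ℕ) : γ n * (N (n + 1) : ℝ) ^ 4 ≤ 1 / 10 ^ 12 := by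
  refine le_trans ?_ (hD.sm n)
  have hy8 := hD.nr (n + 1)
  exact mul_le_mul_of_nonneg_left (pow_le_pow_right₀ (by linarith) (by norm_num)) (hD.pos n).le

theorem Dat.sm2 (n : ℕ) : γ n * (N (n + 1) : ℝ) ^ 2 ≤ 1 / 10 ^ 12 := by
  refine le_trans ?_ (hD.sm n)
  have hy8 := hD.nr (n + 1)
  exact mul_le_mul_of_nonneg_left (pow_le_pow_right₀ (by linarith) (by norm_num)) (hD.pos n).le

theorem Dat.sm1 (n : ℕ) : γ n * (N (n + 1) : ℝ) ≤ 1 / 10 ^ 12 := by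
  refine le_trans ?_ (hD.sm2 n)
  have hy8 := hD.nr (n + 1)
  refine mul_le_mul_of_nonneg_left ?_ (hD.pos n).le
  nlinarith

theorem Dat.sm0 (n : ℕ) : γ n ≤ 1 / 10 ^ 12 := by
  refine le_trans ?_ (hD.sm1 n)
  have hy8 := hD.nr (n + 1)
  have := (hD.pos n)
  nlinarith

theorem dt_hh (n : ℕ) : dt (hh (N n) (N (n + 1))) (hh (N n) (N (n + 1))) =
    441 * (N (n + 1) : ℝ) ^ 2 + ((N (n + 1) : ℝ) + 10 * N n) ^ 2 := by
  rw [dt, hh0, hh1]
  push_cast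
  ring

theorem dt_hh_le (n : ℕ) : dt (hh (N n) (N (n + 1))) (hh (N n) (N (n + 1))) ≤
    562 * (N (n + 1) : ℝ) ^ 2 := by
  rw [dt_hh hD]
  have := hD.gr n
  have := hD.nr n
  nlinarith

theorem ZZ_eq (n : ℕ) : ZZ N γ n = 3518 / 3 * V (N n) + 5 / 3 * N n * m (N n) ^ 3 +
    γ n ^ 2 * (2 * dt (hh (N n) (N (n + 1))) (hh (N n) (N (n + 1)))) := by
  rw [ZZ]
  have := sum_b_sq (hD.sc.one n) (hD.sc.two n) (γ n) (fun k => dt k k)
  rw [show (∑ k ∈ SS (N n) (N (n + 1)), bb N γ n k ^ 2 * dt k k) =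
    ∑ k ∈ SS (N n) (N (n + 1)), b (N n) (N (n + 1)) (γ n) k ^ 2 * dt k k from rfl, this,
    sum_gsq_nrm (hD.sc.one n) (Subset.refl _), dt_neg_left, dt_neg_right]
  ring

theorem ZZ_lo (n : ℕ) : 3518 / 3 * V (N n) ≤ ZZ N γ n := by
  rw [ZZ_eq hD, dt_hh hD]
  have := m_pos (N n)
  have h1 : 0 ≤ 5 / 3 * N n * m (N n) ^ 3 := by positivity
  have h2 : 0 ≤ γ n ^ 2 * (2 * (441 * (N (n + 1) : ℝ) ^ 2 + ((N (n + 1) : ℝ) + 10 * N n) ^ 2)) := by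
    positivity
  linarith

theorem ZZ_hi (n : ℕ) : ZZ N γ n ≤ (3518 / 3 + 1 / 1000) * V (N n) := by
  rw [ZZ_eq hD]
  have hm := m_pos (N n)
  have hn := hD.nr n
  have h1 : 5 / 3 * N n * m (N n) ^ 3 ≤ 1 / 2000 * V (N n) := by
    rw [V]
    have : 5 / 3 * (N n : ℝ) ≤ 1 / 2000 * (N n : ℝ) ^ 2 := by nlinarith
    calc 5 / 3 * N n * m (N n) ^ 3 ≤ (1 / 2000 * (N n : ℝ) ^ 2) * m (N n) ^ 3 :=
          mul_le_mul_of_nonneg_right this (by positivity)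
      _ = _ := by ring
  have h2 : γ n ^ 2 * (2 * dt (hh (N n) (N (n + 1))) (hh (N n) (N (n + 1)))) ≤ 1 / 2000 := by
    have h3 := dt_hh_le hD n
    have h4 := hD.sm2 n
    have h5 := hD.sm0 n
    have h6 := (hD.pos n).le
    calc γ n ^ 2 * (2 * dt (hh (N n) (N (n + 1))) (hh (N n) (N (n + 1)))) ≤
        γ n ^ 2 * (2 * (562 * (N (n + 1) : ℝ) ^ 2)) :=
          mul_le_mul_of_nonneg_left (by linarith) (by positivity)
      _ = 1124 * (γ n * (γ n * (N (n + 1) : ℝ) ^ 2)) := by ring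
      _ ≤ 1124 * (1 / 10 ^ 12 * (1 / 10 ^ 12)) := by
          gcongr
      _ ≤ 1 / 2000 := by norm_num
  have hV := V_one (hD.sc.one n)
  linarith

theorem V_pos (n : ℕ) : 0 < V (N n) := lt_of_lt_of_le one_pos (V_one (hD.sc.one n))

theorem ZZ_pos (n : ℕ) : 0 < ZZ N γ n := by
  have := ZZ_lo hD n
  have := V_pos hD n
  linarith

theorem cc_pos (n : ℕ) : 0 < cc N γ n := by
  unfold cc
  have := ZZ_pos hD n
  positivity

theorem cc_sq (n : ℕ) : cc N γ n ^ 2 = (ZZ N γ n)⁻¹ := by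
  rw [cc, inv_pow, Real.sq_sqrt (ZZ_pos hD n).le]

theorem cc_le_one (n : ℕ) : cc N γ n ≤ 1 := by
  have h1 : cc N γ n ^ 2 ≤ 1 := by
    rw [cc_sq hD]
    apply inv_le_one_of_one_le₀
    have := ZZ_lo hD n
    have := V_one (hD.sc.one n)
    linarith
  have h2 := cc_pos hD n
  nlinarith

/-- upper bound of `V` -/
theorem V_le (n : ℕ) : V (N n) ≤ 27 * (N n : ℝ) ^ 5 := by
  have hn := hD.nr n
  have h1 : m (N n) ^ 3 ≤ (3 * (N n : ℝ)) ^ 3 := by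
    apply pow_le_pow_left₀ (m_pos _).le
    unfold m; linarith
  calc V (N n) ≤ (N n : ℝ) ^ 2 * (3 * (N n : ℝ)) ^ 3 := mul_le_mul_of_nonneg_left h1 (by positivity)
    _ = _ := by ring

theorem ZZ_crude (n : ℕ) : ZZ N γ n ≤ 32400 * (N n : ℝ) ^ 5 := by
  have h1 := ZZ_hi hD n
  have h2 := V_le hD n
  have h3 := V_pos hD n
  have : 0 ≤ (N n : ℝ) ^ 5 := by positivity
  nlinarith

theorem cc_sq_lo (n : ℕ) : 1 / (32400 * (N n : ℝ) ^ 5) ≤ cc N γ n ^ 2 := by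
  rw [cc_sq hD, one_div]
  exact inv_anti₀ (ZZ_pos hD n) (ZZ_crude hD n)

theorem cc_lo (n : ℕ) : 1 / (32400 * (N n : ℝ) ^ 5) ≤ cc N γ n := by
  refine (cc_sq_lo hD n).trans ?_
  have h1 := cc_le_one hD n
  have h2 := cc_pos hD n
  nlinarith

/-! ### the interactions -/

theorem bil_PP (i j n : ℕ) : bil (PP N γ i) (PP N γ j) (PP N γ n) =
    2 * Real.pi * (cc N γ i * cc N γ j * cc N γ n * tri (bb N γ i) (bb N γ j) (bb N γ n)) := by
  rw [PP, PP, PP, bil_fam, tri_smul]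

theorem bil_PP_anti (i j n : ℕ) : bil (PP N γ i) (PP N γ j) (PP N γ n) =
    -bil (PP N γ i) (PP N γ n) (PP N γ j) := by
  rw [bil_PP hD, bil_PP hD, tri_anti (bb_neg _ _ _)]
  ring

theorem bil_PP_zero {i j n : ℕ} (hj : j < n) (hi : i ≠ n) (hc : ¬(i = j ∧ n = j + 1)) :
    bil (PP N γ i) (PP N γ j) (PP N γ n) = 0 := by
  rw [bil_PP hD, tri_zero hD.sc γ hj hi hc]
  ring

theorem bil_PP_diag (i j : ℕ) : bil (PP N γ i) (PP N γ j) (PP N γ j) = 0 := by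
  have := bil_PP_anti hD i j j
  linarith

end

/-- `3 / 3518` -/
noncomputable def kap : ℝ := 3 / 3518

/-- the constant `β` -/
noncomputable def bet : ℝ := 2 * Real.pi * (127449 * √(8 * kap ^ 3 / 20 ^ 5))

theorem kap_pos : 0 < kap := by unfold kap; norm_num

theorem bet_pos : 0 < bet := by
  unfold bet
  have := kap_pos
  have := Real.pi_pos
  positivity

/-- `√(8 κ³ N⁵)` -/
noncomputable def sr (N : ℕ) : ℝ := √(8 * kap ^ 3 * (N : ℝ) ^ 5)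

theorem sr_pos {N : ℕ} (hN : 1 ≤ N) : 0 < sr N := by
  unfold sr
  have := kap_pos
  have : (0 : ℝ) < N := by exact_mod_cast hN
  positivity

theorem sr_sq (N : ℕ) : sr N ^ 2 = 8 * kap ^ 3 * (N : ℝ) ^ 5 := by
  have := kap_pos
  rw [sr, Real.sq_sqrt (by positivity)]

theorem bet_K {K N : ℕ} (h : K = 20 * N) : bet * ((K : ℝ) ^ 2 * √(K : ℝ)) =
    2 * Real.pi * (127449 * sr N) := by
  have hk := kap_pos
  have h1 : (K : ℝ) ^ 2 * √(K : ℝ) = √((K : ℝ) ^ 5) := by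
    rw [show (K : ℝ) ^ 5 = ((K : ℝ) ^ 2) ^ 2 * K by ring, Real.sqrt_mul (by positivity),
      Real.sqrt_sq (by positivity)]
  have h2 : 8 * kap ^ 3 / 20 ^ 5 * (K : ℝ) ^ 5 = 8 * kap ^ 3 * (N : ℝ) ^ 5 := by
    rw [h]; push_cast; ring
  rw [h1, bet, sr, mul_assoc, mul_assoc 127449, ← Real.sqrt_mul (by positivity), h2]

end Pool.Agent.Y155.ND
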