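import Pool.Agent.Y155.ND.TI

/-!
# Bounds of the coefficients of the table
-/

set_option autoImplicit false
set_option linter.unusedSectionVars false

namespace Pool.Agent.Y155.ND

open Pool.Agent.Y5 Pool.Agent.Y5.D Finset

section
variable {N : ℕ → ℕ} {γ : ℕ → ℝ} (hD : Dat N γ)
include hD

/-- the quotient with the main size -/
noncomputable def BB (N : ℕ → ℕ) (γ : ℕ → ℝ) (j n : ℕ) : ℝ :=
  cc N γ n ^ 2 * cc N γ j * tri (bb N γ n) (bb N γ j) (bb N γ n) / (127449 * sr (N j))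

theorem u_bd (n : ℕ) : 9999 / 10000 * kap ≤ cc N γ n ^ 2 * V (N n) ∧
    cc N γ n ^ 2 * V (N n) ≤ kap := by
  have h1 := ZZ_lo hD n
  have h2 := ZZ_hi hD n
  have h3 := ZZ_pos hD n
  have h4 := V_pos hD n
  rw [cc_sq hD, inv_mul_eq_div, le_div_iff₀ h3, div_le_iff₀ h3]
  unfold kap
  constructor <;> nlinarith

theorem w_bd (j : ℕ) : 8 * (N j : ℝ) ^ 5 ≤ V (N j) ∧ V (N j) ≤ 10001 / 10000 * (8 * (N j : ℝ) ^ 5) := by
  have hn := hD.nr j
  set x : ℝ := (N j : ℝ) with hx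
  have hm : m (N j) = 2 * x + 1 := rfl
  have hV : V (N j) = x ^ 2 * (2 * x + 1) ^ 3 := rfl
  rw [hV]
  have h0 : 0 < x := by linarith
  constructor
  · have : (2 * x) ^ 3 ≤ (2 * x + 1) ^ 3 := pow_le_pow_left₀ (by linarith) (by linarith) 3
    calc 8 * x ^ 5 = x ^ 2 * (2 * x) ^ 3 := by ring
      _ ≤ _ := mul_le_mul_of_nonneg_left this (by positivity)
  · have h1 : (2 * x + 1) ^ 3 ≤ 10001 / 10000 * (8 * x ^ 3) := by
      have h2 : 2 * x + 1 ≤ 100001 / 100000 * (2 * x) := by linarith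
      have h3 : (2 * x + 1) ^ 3 ≤ (100001 / 100000 * (2 * x)) ^ 3 :=
        pow_le_pow_left₀ (by linarith) h2 3
      refine h3.trans ?_
      have : 0 ≤ x ^ 3 := by positivity
      nlinarith
    calc x ^ 2 * (2 * x + 1) ^ 3 ≤ x ^ 2 * (10001 / 10000 * (8 * x ^ 3)) :=
          mul_le_mul_of_nonneg_left h1 (by positivity)
      _ = _ := by ring

theorem v_bd (j : ℕ) : 9998 / 10000 ≤ cc N γ j * V (N j) * kap / sr (N j) ∧
    cc N γ j * V (N j) * kap / sr (N j) ≤ 10002 / 10000 := by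
  have hs := sr_pos (hD.sc.one j)
  have hc := cc_pos hD j
  have hV := V_pos hD j
  have hk := kap_pos
  set t := cc N γ j * V (N j) * kap / sr (N j) with ht
  have ht0 : 0 < t := by positivity
  have hx : (0 : ℝ) < N j := by have := hD.nr j; linarith
  have e : t ^ 2 = (cc N γ j ^ 2 * V (N j)) / kap * (V (N j) / (8 * (N j : ℝ) ^ 5)) := by
    rw [ht, div_pow, sr_sq]
    field_simp
  obtain ⟨u1, u2⟩ := u_bd hD j
  obtain ⟨w1, w2⟩ := w_bd hD j
  have a1 : 9999 / 10000 ≤ (cc N γ j ^ 2 * V (N j)) / kap := by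
    rw [le_div_iff₀ hk]; exact u1
  have a2 : (cc N γ j ^ 2 * V (N j)) / kap ≤ 1 := by
    rw [div_le_iff₀ hk, one_mul]; exact u2
  have a3 : 1 ≤ V (N j) / (8 * (N j : ℝ) ^ 5) := by
    rw [le_div_iff₀ (by positivity), one_mul]; exact w1
  have a4 : V (N j) / (8 * (N j : ℝ) ^ 5) ≤ 10001 / 10000 := by
    rw [div_le_iff₀ (by positivity)]; exact w2
  have t1 : 9999 / 10000 ≤ t ^ 2 := by rw [e]; nlinarith
  have t2 : t ^ 2 ≤ 10001 / 10000 := by rw [e]; nlinarith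
  constructor <;> nlinarith

theorem BB_bd {j n : ℕ} (hj : j < n) : 999 / 1000 ≤ BB N γ j n ∧ BB N γ j n ≤ 1001 / 1000 := by
  have hs := sr_pos (hD.sc.one j)
  have hVn := V_pos hD n
  have hVj := V_pos hD j
  have hk := kap_pos
  have hest := tri_B_est hD.sc γ hj (hD.pos j).le (by
    have := hD.sm2 j
    linarith)
  set T := tri (bb N γ n) (bb N γ j) (bb N γ n) with hT
  have e : BB N γ j n = (cc N γ n ^ 2 * V (N n) / kap) * (cc N γ j * V (N j) * kap / sr (N j)) *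
      (T / (127449 * (V (N n) * V (N j)))) := by
    rw [BB, ← hT]
    field_simp
  obtain ⟨u1, u2⟩ := u_bd hD n
  obtain ⟨v1, v2⟩ := v_bd hD j
  have a1 : 9999 / 10000 ≤ (cc N γ n ^ 2 * V (N n)) / kap := by
    rw [le_div_iff₀ hk]; exact u1
  have a2 : (cc N γ n ^ 2 * V (N n)) / kap ≤ 1 := by
    rw [div_le_iff₀ hk, one_mul]; exact u2
  rw [abs_le] at hest
  have a3 : 9999 / 10000 ≤ T / (127449 * (V (N n) * V (N j))) := by
    rw [le_div_iff₀ (by positivity)]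
    have : 0 < V (N n) * V (N j) := by positivity
    linarith [hest.1]
  have a4 : T / (127449 * (V (N n) * V (N j))) ≤ 10001 / 10000 := by
    rw [div_le_iff₀ (by positivity)]
    have : 0 < V (N n) * V (N j) := by positivity
    linarith [hest.2]
  set A := (cc N γ n ^ 2 * V (N n)) / kap
  set B := cc N γ j * V (N j) * kap / sr (N j)
  set C := T / (127449 * (V (N n) * V (N j)))
  rw [e]
  have b1 : 9996 / 10000 ≤ A * B := by nlinarith
  have b2 : A * B ≤ 10002 / 10000 := by nlinarith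
  constructor <;> nlinarith

/-- the coefficient of the transfer -/
noncomputable def CC (N : ℕ → ℕ) (γ : ℕ → ℝ) (n : ℕ) : ℝ :=
  cc N γ n ^ 2 * cc N γ (n + 1) * tri (bb N γ n) (bb N γ n) (bb N γ (n + 1)) /
    (127449 * sr (N n))

theorem CC_lo (n : ℕ) : γ n ≤ CC N γ n * (20 * (N (n + 1) : ℝ)) ^ 20 := by
  have hs := sr_pos (hD.sc.one n)
  have hγ := hD.pos n
  have hT := (tri_C_est hD.sc γ n hγ.le).1
  set T := tri (bb N γ n) (bb N γ n) (bb N γ (n + 1)) with hTd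
  have hx := hD.nr n
  have hxy := hD.gr n
  set x : ℝ := (N n : ℝ) with hxd
  set y : ℝ := (N (n + 1) : ℝ) with hyd
  have hx0 : 0 < x := by linarith
  have hy0 : 0 < y := by linarith
  have c1 : 1 / (32400 * x ^ 5) ≤ cc N γ n ^ 2 := cc_sq_lo hD n
  have c2 : 1 / (32400 * y ^ 5) ≤ cc N γ (n + 1) := cc_lo hD (n + 1)
  have s1 : sr (N n) ≤ x ^ 3 := by
    rw [sr]
    apply Real.sqrt_le_iff.2
    refine ⟨by positivity, ?_⟩
    have k3 : 8 * kap ^ 3 ≤ 1 := by unfold kap; norm_num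
    calc 8 * kap ^ 3 * x ^ 5 ≤ 1 * x ^ 5 := mul_le_mul_of_nonneg_right k3 (by positivity)
      _ ≤ x * x ^ 5 := mul_le_mul_of_nonneg_right (by linarith) (by positivity)
      _ = (x ^ 3) ^ 2 := by ring
  rw [CC, ← hTd, div_mul_eq_mul_div, le_div_iff₀ (by positivity)]
  have h1 : 1 / (32400 * x ^ 5) * (1 / (32400 * y ^ 5)) * γ n ≤
      cc N γ n ^ 2 * cc N γ (n + 1) * T := by
    have h0 := cc_pos hD (n + 1)
    exact mul_le_mul (mul_le_mul c1 c2 (by positivity) (sq_nonneg _)) hT hγ.le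
      (mul_nonneg (sq_nonneg _) h0.le)
  have h2 : γ n * (127449 * sr (N n)) ≤ γ n * (127449 * x ^ 3) :=
    mul_le_mul_of_nonneg_left (mul_le_mul_of_nonneg_left s1 (by norm_num)) hγ.le
  refine h2.trans ?_
  refine le_trans ?_ (mul_le_mul_of_nonneg_right h1 (by positivity))
  have h3 : 1 / (32400 * x ^ 5) * (1 / (32400 * y ^ 5)) * γ n * (20 * y) ^ 20 =
      γ n * ((20 ^ 20 / 32400 ^ 2) * (y ^ 15 / x ^ 5)) := by
    field_simp
  rw [h3]
  refine mul_le_mul_of_nonneg_left ?_ hγ.le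
  have h4 : x ^ 3 ≤ y ^ 15 / x ^ 5 := by
    rw [le_div_iff₀ (by positivity)]
    calc x ^ 3 * x ^ 5 = x ^ 8 := by ring
      _ ≤ y ^ 8 := pow_le_pow_left₀ hx0.le (by linarith) 8
      _ ≤ y ^ 15 := pow_le_pow_right₀ (by linarith) (by norm_num)
  have h5 : (127449 : ℝ) ≤ 20 ^ 20 / 32400 ^ 2 := by norm_num
  have h6 : 0 ≤ x ^ 3 := by positivity
  exact mul_le_mul h5 h4 h6 (by positivity)

theorem CC_hi (n : ℕ) : CC N γ n ≤ γ n * (20 * (N (n + 1) : ℝ)) ^ 20 := by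
  have hs := sr_pos (hD.sc.one n)
  have hγ := hD.pos n
  have hT := (tri_C_est hD.sc γ n hγ.le).2
  have hT0 := (tri_C_est hD.sc γ n hγ.le).1
  set T := tri (bb N γ n) (bb N γ n) (bb N γ (n + 1)) with hTd
  have hx := hD.nr n
  have hxy := hD.gr n
  set x : ℝ := (N n : ℝ) with hxd
  set y : ℝ := (N (n + 1) : ℝ) with hyd
  have hx0 : 0 < x := by linarith
  have hy0 : 0 < y := by linarith
  have s1 : 1 ≤ 127449 * sr (N n) := by
    have : (1 / 127449 : ℝ) ≤ sr (N n) := by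
      rw [sr]
      apply Real.le_sqrt_of_sq_le
      have k3 : (1 : ℝ) / 10 ^ 10 ≤ 8 * kap ^ 3 := by unfold kap; norm_num
      have k4 : (1 : ℝ) ≤ x ^ 5 := one_le_pow₀ (by linarith)
      calc (1 / 127449 : ℝ) ^ 2 ≤ 1 / 10 ^ 10 * 1 := by norm_num
        _ ≤ 8 * kap ^ 3 * x ^ 5 := mul_le_mul k3 k4 (by norm_num) (by linarith [kap_pos, k3])
    linarith
  have c1 : cc N γ n ^ 2 ≤ 1 := by
    have := cc_le_one hD n
    have := cc_pos hD n
    nlinarith
  have c2 := cc_le_one hD (n + 1)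
  have c3 := cc_pos hD (n + 1)
  have h1 : cc N γ n ^ 2 * cc N γ (n + 1) * T ≤ 1 * 1 * T := by
    have : 0 ≤ T := by linarith
    exact mul_le_mul_of_nonneg_right (mul_le_mul c1 c2 c3.le (by norm_num)) this
  rw [CC, ← hTd, div_le_iff₀ (by positivity)]
  have h2 : T ≤ γ n * (20 * y) ^ 20 := by
    refine hT.trans (mul_le_mul_of_nonneg_left ?_ hγ.le)
    calc 6000000 * x ^ 4 * y ^ 3 ≤ 20 ^ 20 * y ^ 4 * y ^ 3 := by
          gcongr
          · norm_num
          · linarith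
      _ = 20 ^ 20 * y ^ 7 := by ring
      _ ≤ 20 ^ 20 * y ^ 20 := by
          have : y ^ 7 ≤ y ^ 20 := pow_le_pow_right₀ (by linarith) (by norm_num)
          linarith
      _ = (20 * y) ^ 20 := by ring
  have h3 : 0 ≤ γ n * (20 * y) ^ 20 := by positivity
  calc cc N γ n ^ 2 * cc N γ (n + 1) * T ≤ T := by linarith
    _ ≤ γ n * (20 * y) ^ 20 * 1 := by linarith
    _ ≤ γ n * (20 * y) ^ 20 * (127449 * sr (N n)) := mul_le_mul_of_nonneg_left s1 h3

end

end Pool.Agent.Y155.ND
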