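import Pool.Agent.Y155.ND.TJ

/-!
# Geometry of the packets
-/

set_option autoImplicit false
set_option linter.unusedSectionVars false

namespace Pool.Agent.Y155.ND

open Pool.Agent.Y5 Pool.Agent.Y5.D Finset

section
variable {N : ℕ → ℕ} {γ : ℕ → ℝ} (hD : Dat N γ)
include hD

theorem mem_of_PP {n : ℕ} {k : Z3} (h : PP N γ n k ≠ 0) : k ∈ SS (N n) (N (n + 1)) := by
  by_contra h1
  apply h
  have : bb N γ n k = 0 := by
    by_contra h2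
    exact h1 (mem_of_bb h2)
  rw [PP, fam, this, mul_zero, neg_zero, zero_smul]

theorem tsum_PP (n : ℕ) (f : Z3 → ℝ) (hf : ∀ k, PP N γ n k = 0 → f k = 0) :
    ∑' k, f k = ∑ k ∈ SS (N n) (N (n + 1)), f k := by
  apply tsum_eq_sum
  intro k hk
  apply hf
  by_contra h
  exact hk (mem_of_PP hD h)

theorem norm_PP_sq (n : ℕ) (k : Z3) : ‖PP N γ n k‖ ^ 2 = cc N γ n ^ 2 * (bb N γ n k ^ 2 * dt k k) := by
  rw [PP, fam, norm_smul, mul_pow, norm_perp_sq, Real.norm_eq_abs, sq_abs]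
  ring

theorem norm1 (n : ℕ) : pair (PP N γ n) (PP N γ n) = 1 := by
  rw [pair]
  have e : ∀ k, inner ℝ (PP N γ n k) (PP N γ n k) = cc N γ n ^ 2 * (bb N γ n k ^ 2 * dt k k) := by
    intro k
    rw [real_inner_self_eq_norm_sq, norm_PP_sq hD]
  rw [tsum_PP hD n _ (fun k hk => by rw [hk]; simp)]
  simp only [e]
  rw [← mul_sum, cc_sq hD, ← ZZ, inv_mul_cancel₀ (ZZ_pos hD n).ne']

theorem dt_self (k : Z3) : dt k k = (k 0 : ℝ) ^ 2 + (k 1 : ℝ) ^ 2 := by unfold dt; ring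

/-- norms on the main part -/
theorem norm_Q {n : ℕ} {k : Z3} (h : k ∈ Q (N n)) : 20 * (N n : ℝ) ≤ ‖vec k‖ ∧
    ‖vec k‖ ≤ 26 * N n := by
  rw [mem_Q, mem_c0, mem_c1, mem_c2, mem_c3] at h
  have hx := hD.nr n
  set x : ℝ := (N n : ℝ) with hxd
  have hsq := norm_vec_sq k
  have h0 : 0 ≤ ‖vec k‖ := norm_nonneg _
  have key : 400 * x ^ 2 ≤ (k 0 : ℝ) ^ 2 + (k 1 : ℝ) ^ 2 + (k 2 : ℝ) ^ 2 ∧
      (k 0 : ℝ) ^ 2 + (k 1 : ℝ) ^ 2 + (k 2 : ℝ) ^ 2 ≤ 676 * x ^ 2 := by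
    have sq_lo : ∀ {t a : ℝ}, 0 ≤ a → a ≤ t → a ^ 2 ≤ t ^ 2 := fun h1 h2 => by nlinarith
    have sq_lo' : ∀ {t a : ℝ}, 0 ≤ a → t ≤ -a → a ^ 2 ≤ t ^ 2 := fun h1 h2 => by nlinarith
    have sq_hi : ∀ {t a : ℝ}, -a ≤ t → t ≤ a → t ^ 2 ≤ a ^ 2 := fun h1 h2 => by nlinarith
    rcases h with (h | h) | (h | h)
    · obtain ⟨⟨a1, a2⟩, ⟨a3, a4⟩, ⟨a5, a6⟩⟩ := h
      have b1 : 20 * x ≤ (k 0 : ℝ) := by rw [hxd]; exact_mod_cast a1
      have b2 : (k 0 : ℝ) ≤ 22 * x := by rw [hxd]; exact_mod_cast a2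
      have b3 : -x ≤ (k 1 : ℝ) := by rw [hxd]; exact_mod_cast a3
      have b4 : (k 1 : ℝ) ≤ x := by rw [hxd]; exact_mod_cast a4
      have b5 : -x ≤ (k 2 : ℝ) := by rw [hxd]; exact_mod_cast a5
      have b6 : (k 2 : ℝ) ≤ x := by rw [hxd]; exact_mod_cast a6
      have c1 := sq_lo (by linarith) b1
      have c2 := sq_hi (by linarith : -(22 * x) ≤ (k 0 : ℝ)) b2
      have c3 := sq_hi b3 b4
      have c4 := sq_hi b5 b6
      constructor <;> nlinarith [sq_nonneg (k 1 : ℝ), sq_nonneg (k 2 : ℝ)]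
    · obtain ⟨⟨a1, a2⟩, ⟨a3, a4⟩, ⟨a5, a6⟩⟩ := h
      have b1 : -(22 * x) ≤ (k 0 : ℝ) := by rw [hxd]; exact_mod_cast a1
      have b2 : (k 0 : ℝ) ≤ -(20 * x) := by rw [hxd]; exact_mod_cast a2
      have b3 : -x ≤ (k 1 : ℝ) := by rw [hxd]; exact_mod_cast a3
      have b4 : (k 1 : ℝ) ≤ x := by rw [hxd]; exact_mod_cast a4
      have b5 : -x ≤ (k 2 : ℝ) := by rw [hxd]; exact_mod_cast a5
      have b6 : (k 2 : ℝ) ≤ x := by rw [hxd]; exact_mod_cast a6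
      have c1 := sq_lo' (by linarith) b2
      have c2 := sq_hi b1 (by linarith : (k 0 : ℝ) ≤ 22 * x)
      have c3 := sq_hi b3 b4
      have c4 := sq_hi b5 b6
      constructor <;> nlinarith [sq_nonneg (k 1 : ℝ), sq_nonneg (k 2 : ℝ)]
    · obtain ⟨⟨a1, a2⟩, ⟨a3, a4⟩, ⟨a5, a6⟩⟩ := h
      have b1 : 16 * x ≤ (k 0 : ℝ) := by rw [hxd]; exact_mod_cast a1
      have b2 : (k 0 : ℝ) ≤ 18 * x := by rw [hxd]; exact_mod_cast a2
      have b3 : 16 * x ≤ (k 1 : ℝ) := by rw [hxd]; exact_mod_cast a3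
      have b4 : (k 1 : ℝ) ≤ 18 * x := by rw [hxd]; exact_mod_cast a4
      have b5 : -x ≤ (k 2 : ℝ) := by rw [hxd]; exact_mod_cast a5
      have b6 : (k 2 : ℝ) ≤ x := by rw [hxd]; exact_mod_cast a6
      have c1 := sq_lo (by linarith) b1
      have c2 := sq_hi (by linarith : -(18 * x) ≤ (k 0 : ℝ)) b2
      have c3 := sq_lo (by linarith) b3
      have c3' := sq_hi (by linarith : -(18 * x) ≤ (k 1 : ℝ)) b4
      have c4 := sq_hi b5 b6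
      constructor <;> nlinarith [sq_nonneg (k 2 : ℝ)]
    · obtain ⟨⟨a1, a2⟩, ⟨a3, a4⟩, ⟨a5, a6⟩⟩ := h
      have b1 : -(18 * x) ≤ (k 0 : ℝ) := by rw [hxd]; exact_mod_cast a1
      have b2 : (k 0 : ℝ) ≤ -(16 * x) := by rw [hxd]; exact_mod_cast a2
      have b3 : -(18 * x) ≤ (k 1 : ℝ) := by rw [hxd]; exact_mod_cast a3
      have b4 : (k 1 : ℝ) ≤ -(16 * x) := by rw [hxd]; exact_mod_cast a4
      have b5 : -x ≤ (k 2 : ℝ) := by rw [hxd]; exact_mod_cast a5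
      have b6 : (k 2 : ℝ) ≤ x := by rw [hxd]; exact_mod_cast a6
      have c1 := sq_lo' (by linarith) b2
      have c2 := sq_hi b1 (by linarith : (k 0 : ℝ) ≤ 18 * x)
      have c3 := sq_lo' (by linarith) b4
      have c3' := sq_hi b3 (by linarith : (k 1 : ℝ) ≤ 18 * x)
      have c4 := sq_hi b5 b6
      constructor <;> nlinarith [sq_nonneg (k 2 : ℝ)]
  rw [← hsq] at key
  constructor
  · exact le_of_sq_le_sq (by nlinarith [key.1]) h0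
  · exact le_of_sq_le_sq (by nlinarith [key.2]) (by positivity)

theorem norm_hh (n : ℕ) : ‖vec (hh (N n) (N (n + 1)))‖ ^ 2 =
    441 * (N (n + 1) : ℝ) ^ 2 + ((N (n + 1) : ℝ) + 10 * N n) ^ 2 := by
  rw [norm_vec_sq, hh0, hh1, hh2]
  push_cast
  ring

theorem norm_hh_bd (n : ℕ) : 21 * (N (n + 1) : ℝ) ≤ ‖vec (hh (N n) (N (n + 1)))‖ ∧
    ‖vec (hh (N n) (N (n + 1)))‖ ≤ 24 * N (n + 1) := by
  have h1 := norm_hh hD n
  have h2 := hD.nr n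
  have h3 := hD.gr n
  have h0 : 0 ≤ ‖vec (hh (N n) (N (n + 1)))‖ := norm_nonneg _
  constructor
  · exact le_of_sq_le_sq (by rw [h1]; nlinarith) h0
  · exact le_of_sq_le_sq (by rw [h1]; nlinarith) (by positivity)

theorem vec_neg (k : Z3) : vec (-k) = -vec k := by
  ext i
  simp [vec]

theorem comp_le (k : Z3) (i : Fin 3) : |(k i : ℝ)| ≤ ‖vec k‖ := by
  have h := norm_vec_sq k
  apply abs_le_of_sq_le_sq _ (norm_nonneg _)
  rw [h]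
  fin_cases i
  · change (k 0 : ℝ) ^ 2 ≤ _
    nlinarith [sq_nonneg (k 1 : ℝ), sq_nonneg (k 2 : ℝ)]
  · change (k 1 : ℝ) ^ 2 ≤ _
    nlinarith [sq_nonneg (k 0 : ℝ), sq_nonneg (k 2 : ℝ)]
  · change (k 2 : ℝ) ^ 2 ≤ _
    nlinarith [sq_nonneg (k 0 : ℝ), sq_nonneg (k 1 : ℝ)]

theorem dist_hh {n : ℕ} {k : Z3} (hk : k ∈ Q (N (n + 1))) :
    10 * (N n : ℝ) ≤ ‖vec (k - hh (N n) (N (n + 1)))‖ ∧
    10 * (N n : ℝ) ≤ ‖vec (k + hh (N n) (N (n + 1)))‖ := by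
  have hx := hD.big n
  have hg := hD.sc.gr n
  rw [mem_Q, mem_c0, mem_c1, mem_c2, mem_c3] at hk
  have key : ∀ v : Z3, (10 * (N n : ℤ) ≤ v 0 ∨ v 0 ≤ -(10 * (N n : ℤ)) ∨ 10 * (N n : ℤ) ≤ v 1 ∨
      v 1 ≤ -(10 * (N n : ℤ))) → 10 * (N n : ℝ) ≤ ‖vec v‖ := by
    intro v hv
    rcases hv with h | h | h | h
    · refine le_trans ?_ (comp_le hD v 0)
      refine le_trans ?_ (le_abs_self _)
      exact_mod_cast h
    · refine le_trans ?_ (comp_le hD v 0)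
      refine le_trans ?_ (neg_le_abs _)
      have : ((v 0 : ℤ) : ℝ) ≤ -(10 * (N n : ℝ)) := by exact_mod_cast h
      linarith
    · refine le_trans ?_ (comp_le hD v 1)
      refine le_trans ?_ (le_abs_self _)
      exact_mod_cast h
    · refine le_trans ?_ (comp_le hD v 1)
      refine le_trans ?_ (neg_le_abs _)
      have : ((v 1 : ℤ) : ℝ) ≤ -(10 * (N n : ℝ)) := by exact_mod_cast h
      linarith
  constructor
  · apply key
    simp only [Pi.sub_apply, hh0, hh1]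
    omega
  · apply key
    simp only [Pi.add_apply, hh0, hh1]
    omega

theorem h1_Q (n : ℕ) : cc N γ n ^ 2 * ∑ k ∈ Q (N n), g (N n) k ^ 2 * (dt k k * ‖vec k‖ ^ 2) ≤
    676 * (N n : ℝ) ^ 2 := by
  have h2 : ∑ k ∈ Q (N n), g (N n) k ^ 2 * (dt k k * ‖vec k‖ ^ 2) ≤
      676 * (N n : ℝ) ^ 2 * ∑ k ∈ Q (N n), g (N n) k ^ 2 * dt k k := by
    rw [mul_sum]
    refine sum_le_sum fun k hk => ?_
    have a1 := (norm_Q hD hk).2
    have a2 : ‖vec k‖ ^ 2 ≤ 676 * (N n : ℝ) ^ 2 := by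
      have := pow_le_pow_left₀ (norm_nonneg _) a1 2
      calc _ ≤ _ := this
        _ = _ := by ring
    have a3 : 0 ≤ g (N n) k ^ 2 * dt k k := by
      rw [dt_self hD]; exact mul_nonneg (sq_nonneg _) (add_nonneg (sq_nonneg _) (sq_nonneg _))
    calc g (N n) k ^ 2 * (dt k k * ‖vec k‖ ^ 2) = (g (N n) k ^ 2 * dt k k) * ‖vec k‖ ^ 2 := by ring
      _ ≤ (g (N n) k ^ 2 * dt k k) * (676 * (N n : ℝ) ^ 2) := mul_le_mul_of_nonneg_left a2 a3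
      _ = _ := by ring
  have h3 : cc N γ n ^ 2 * ∑ k ∈ Q (N n), g (N n) k ^ 2 * dt k k ≤ 1 := by
    rw [cc_sq hD, inv_mul_eq_div, div_le_one (ZZ_pos hD n), ZZ_eq hD,
      sum_gsq_nrm (hD.sc.one n) (Subset.refl _)]
    have h0 : 0 ≤ dt (hh (N n) (N (n + 1))) (hh (N n) (N (n + 1))) := by
      rw [dt_self hD]; exact add_nonneg (sq_nonneg _) (sq_nonneg _)
    have : 0 ≤ γ n ^ 2 * (2 * dt (hh (N n) (N (n + 1))) (hh (N n) (N (n + 1)))) :=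
      mul_nonneg (sq_nonneg _) (by linarith)
    linarith
  calc _ ≤ cc N γ n ^ 2 * (676 * (N n : ℝ) ^ 2 * ∑ k ∈ Q (N n), g (N n) k ^ 2 * dt k k) :=
        mul_le_mul_of_nonneg_left h2 (sq_nonneg _)
    _ = 676 * (N n : ℝ) ^ 2 * (cc N γ n ^ 2 * ∑ k ∈ Q (N n), g (N n) k ^ 2 * dt k k) := by ring
    _ ≤ 676 * (N n : ℝ) ^ 2 * 1 := mul_le_mul_of_nonneg_left h3 (by positivity)
    _ = _ := by ring

theorem h1_H (n : ℕ) : cc N γ n ^ 2 * (γ n ^ 2 * (dt (hh (N n) (N (n + 1))) (hh (N n) (N (n + 1))) *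
      ‖vec (hh (N n) (N (n + 1)))‖ ^ 2 + dt (-hh (N n) (N (n + 1))) (-hh (N n) (N (n + 1))) *
      ‖vec (-hh (N n) (N (n + 1)))‖ ^ 2)) ≤ 1 := by
  have hc := cc_pos hD n
  have hc1 := cc_le_one hD n
  rw [vec_neg hD, norm_neg, dt_neg_left, dt_neg_right, neg_neg, norm_hh hD, ← dt_hh hD]
  have d1 : dt (hh (N n) (N (n + 1))) (hh (N n) (N (n + 1))) ≤ 562 * (N (n + 1) : ℝ) ^ 2 :=
    dt_hh_le hD n
  have d0 : 0 ≤ dt (hh (N n) (N (n + 1))) (hh (N n) (N (n + 1))) := by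
    rw [dt_self hD]; exact add_nonneg (sq_nonneg _) (sq_nonneg _)
  generalize dt (hh (N n) (N (n + 1))) (hh (N n) (N (n + 1))) = d at d1 d0 ⊢
  have s1 := hD.sm2 n
  have s0 := (hD.pos n).le
  generalize γ n = γ at *
  generalize cc N _ n = c at *
  have t1 : γ * d ≤ 1 / 10 := by
    have h8 : γ * d ≤ γ * (562 * (N (n + 1) : ℝ) ^ 2) := mul_le_mul_of_nonneg_left d1 s0
    have h9 : (562 : ℝ) * (1 / 10 ^ 12) ≤ 1 / 10 := by norm_num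
    calc _ ≤ _ := h8
      _ = 562 * (γ * (N (n + 1) : ℝ) ^ 2) := by ring
      _ ≤ 562 * (1 / 10 ^ 12) := mul_le_mul_of_nonneg_left s1 (by norm_num)
      _ ≤ _ := h9
  have t0 : 0 ≤ γ * d := mul_nonneg s0 d0
  have h4 : γ ^ 2 * (d * d + d * d) ≤ 1 := by
    calc γ ^ 2 * (d * d + d * d) = 2 * ((γ * d) * (γ * d)) := by ring
      _ ≤ 2 * ((1 / 10) * (1 / 10)) :=
        mul_le_mul_of_nonneg_left (mul_le_mul t1 t1 t0 (by norm_num)) (by norm_num)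
      _ ≤ 1 := by norm_num
  have hc2 : c ^ 2 ≤ 1 := pow_le_one₀ hc.le hc1
  have h5 : 0 ≤ γ ^ 2 * (d * d + d * d) := by
    have := mul_nonneg d0 d0
    exact mul_nonneg (sq_nonneg _) (by linarith)
  calc c ^ 2 * (γ ^ 2 * (d * d + d * d)) ≤ 1 * 1 := mul_le_mul hc2 h4 h5 (by norm_num)
    _ = 1 := by norm_num

theorem h1_bd (n : ℕ) : ∑' k, ‖vec k‖ ^ 2 * ‖PP N γ n k‖ ^ 2 ≤ 2 * (20 * (N n : ℝ)) ^ 2 := by
  rw [tsum_PP hD n _ (fun k hk => by rw [hk]; simp)]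
  simp only [norm_PP_sq hD]
  have hx := hD.nr n
  have e : ∀ k, ‖vec k‖ ^ 2 * (cc N γ n ^ 2 * (bb N γ n k ^ 2 * dt k k)) =
      cc N γ n ^ 2 * (bb N γ n k ^ 2 * (dt k k * ‖vec k‖ ^ 2)) := by intro k; ring
  simp only [e]
  rw [← mul_sum]
  have h1 := sum_b_sq (hD.sc.one n) (hD.sc.two n) (γ n) (fun k => dt k k * ‖vec k‖ ^ 2)
  rw [show (∑ k ∈ SS (N n) (N (n + 1)), bb N γ n k ^ 2 * (dt k k * ‖vec k‖ ^ 2)) =
    ∑ k ∈ SS (N n) (N (n + 1)), b (N n) (N (n + 1)) (γ n) k ^ 2 * (dt k k * ‖vec k‖ ^ 2) from rfl, h1]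
  have a1 := h1_Q hD n
  have a2 := h1_H hD n
  rw [mul_add]
  generalize cc N γ n ^ 2 * ∑ k ∈ Q (N n), g (N n) k ^ 2 * (dt k k * ‖vec k‖ ^ 2) = A at *
  generalize cc N γ n ^ 2 * (γ n ^ 2 * (dt (hh (N n) (N (n + 1))) (hh (N n) (N (n + 1))) *
      ‖vec (hh (N n) (N (n + 1)))‖ ^ 2 + dt (-hh (N n) (N (n + 1))) (-hh (N n) (N (n + 1))) *
      ‖vec (-hh (N n) (N (n + 1)))‖ ^ 2)) = E at *
  have h3 : (1 : ℝ) ≤ (N n : ℝ) ^ 2 := one_le_pow₀ (by linarith)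
  nlinarith

theorem l1_bd (n : ℕ) : ∑' k, ‖PP N γ n k‖ ≤ √((20 * (N n : ℝ)) ^ 3) := by
  rw [tsum_PP hD n _ (fun k hk => by rw [hk]; simp)]
  apply Real.le_sqrt_of_sq_le
  refine (sq_sum_le_card_mul_sum_sq).trans ?_
  have h1 : ∑ k ∈ SS (N n) (N (n + 1)), ‖PP N γ n k‖ ^ 2 = 1 := by
    simp only [norm_PP_sq hD]
    rw [← mul_sum, cc_sq hD, ← ZZ, inv_mul_cancel₀ (ZZ_pos hD n).ne']
  rw [h1, mul_one]
  have hx := hD.nr n
  have hc : ((SS (N n) (N (n + 1))).card : ℝ) ≤ 4 * m (N n) ^ 3 + 2 := by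
    have a1 : (SS (N n) (N (n + 1))).card ≤ (Q (N n)).card + 2 := by
      refine (card_union_le _ _).trans ?_
      have : ({hh (N n) (N (n + 1)), -hh (N n) (N (n + 1))} : Finset Z3).card ≤ 2 := card_le_two
      omega
    have a2 : (Q (N n)).card ≤ (cube (N n) (c0 (N n))).card + (cube (N n) (c1 (N n))).card +
        ((cube (N n) (c2 (N n))).card + (cube (N n) (c3 (N n))).card) := by
      refine (card_union_le _ _).trans ?_
      have b1 := card_union_le (cube (N n) (c0 (N n))) (cube (N n) (c1 (N n)))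
      have b2 := card_union_le (cube (N n) (c2 (N n))) (cube (N n) (c3 (N n)))
      omega
    have a3 : ((SS (N n) (N (n + 1))).card : ℝ) ≤ ((cube (N n) (c0 (N n))).card : ℝ) +
        (cube (N n) (c1 (N n))).card + ((cube (N n) (c2 (N n))).card +
        (cube (N n) (c3 (N n))).card) + 2 := by
      exact_mod_cast a1.trans (Nat.add_le_add_right a2 2)
    simp only [card_cube] at a3
    linarith
  refine hc.trans ?_
  have hm : m (N n) ^ 3 ≤ (3 * (N n : ℝ)) ^ 3 := by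
    apply pow_le_pow_left₀ (m_pos _).le
    unfold m; linarith
  have h2 : (1 : ℝ) ≤ (N n : ℝ) ^ 3 := one_le_pow₀ (by linarith)
  nlinarith

end

end Pool.Agent.Y155.ND
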