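import Pool.Agent.Y155.ND.TK

/-!
# The value of the packets at a point
-/

set_option autoImplicit false
set_option linter.unusedSectionVars false

namespace Pool.Agent.Y155.ND

open Pool.Agent.Y5 Pool.Agent.Y5.D Finset

/-- the point -/
noncomputable def yy (N : ℕ) : E3 := WithLp.toLp 2 ![1 / (80 * (N : ℝ)), 0, 0]

theorem inner_yy (N : ℕ) (k : Z3) : inner ℝ (vec k) (yy N) = (k 0 : ℝ) / (80 * N) := by
  rw [yy, vec, PiLp.inner_apply, Fin.sum_univ_three]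
  simp
  ring

theorem sin_lo {t : ℝ} (h1 : 2 / 5 ≤ t) (h2 : t ≤ 11 / 20) : 1 / 2 ≤ Real.sin (Real.pi * t) := by
  rw [show Real.pi * t = Real.pi / 2 - (Real.pi / 2 - Real.pi * t) by ring, Real.sin_pi_div_two_sub]
  refine le_trans ?_ (Real.one_sub_sq_div_two_le_cos (x := Real.pi / 2 - Real.pi * t))
  have hp := Real.pi_lt_d2
  have hp0 := Real.pi_pos
  have e : Real.pi / 2 - Real.pi * t = Real.pi * (1 / 2 - t) := by ring
  rw [e]
  have h3 : Real.pi * (1 / 2 - t) ≤ 4 / 10 := by nlinarith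
  have h4 : -(4 / 10) ≤ Real.pi * (1 / 2 - t) := by nlinarith
  nlinarith

/-- the function summed -/
noncomputable def ff (N : ℕ) (k : Z3) : ℝ := (k 0 : ℝ) * Real.sin (2 * Real.pi * ((k 0 : ℝ) / (80 * N)))

theorem ff_pos {N : ℕ} (hN : 1 ≤ N) {x : ℝ} (h1 : 16 * (N : ℝ) ≤ x) (h2 : x ≤ 22 * N) :
    8 * (N : ℝ) ≤ x * Real.sin (2 * Real.pi * (x / (80 * N))) := by
  have hN1 : (1 : ℝ) ≤ N := by exact_mod_cast hN
  have e : 2 * Real.pi * (x / (80 * N)) = Real.pi * (x / (40 * N)) := by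
    field_simp; ring
  rw [e]
  have h3 := sin_lo (t := x / (40 * N)) (by rw [le_div_iff₀ (by positivity)]; linarith)
    (by rw [div_le_iff₀ (by positivity)]; linarith)
  nlinarith

theorem ff_Q {N : ℕ} (hN : 1 ≤ N) {k : Z3} (h : k ∈ Q N) : 8 * (N : ℝ) ≤ ff N k := by
  rw [mem_Q, mem_c0, mem_c1, mem_c2, mem_c3] at h
  have hN1 : (1 : ℝ) ≤ N := by exact_mod_cast hN
  have neg : ff N k = (-(k 0 : ℝ)) * Real.sin (2 * Real.pi * ((-(k 0 : ℝ)) / (80 * N))) := by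
    rw [ff, neg_div, mul_neg, Real.sin_neg]; ring
  rcases h with (h | h) | (h | h)
  · obtain ⟨⟨a1, a2⟩, -⟩ := h
    have b1 : 20 * (N : ℝ) ≤ (k 0 : ℝ) := by exact_mod_cast a1
    have b2 : (k 0 : ℝ) ≤ 22 * N := by exact_mod_cast a2
    exact ff_pos hN (by linarith) b2
  · obtain ⟨⟨a1, a2⟩, -⟩ := h
    have b1 : -(22 * (N : ℝ)) ≤ (k 0 : ℝ) := by exact_mod_cast a1
    have b2 : (k 0 : ℝ) ≤ -(20 * N) := by exact_mod_cast a2
    rw [neg]
    exact ff_pos hN (by linarith) (by linarith)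
  · obtain ⟨⟨a1, a2⟩, -⟩ := h
    have b1 : 16 * (N : ℝ) ≤ (k 0 : ℝ) := by exact_mod_cast a1
    have b2 : (k 0 : ℝ) ≤ 18 * N := by exact_mod_cast a2
    exact ff_pos hN b1 (by linarith)
  · obtain ⟨⟨a1, a2⟩, -⟩ := h
    have b1 : -(18 * (N : ℝ)) ≤ (k 0 : ℝ) := by exact_mod_cast a1
    have b2 : (k 0 : ℝ) ≤ -(16 * N) := by exact_mod_cast a2
    rw [neg]
    exact ff_pos hN (by linarith) (by linarith)

theorem ff_abs (N : ℕ) (k : Z3) : -|(k 0 : ℝ)| ≤ ff N k := by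
  have h : |ff N k| ≤ |(k 0 : ℝ)| := by
    rw [ff, abs_mul]
    exact mul_le_of_le_one_right (abs_nonneg _) (Real.abs_sin_le_one _)
  exact (abs_le.1 h).1.trans' (by linarith)

section
variable {N : ℕ → ℕ} {γ : ℕ → ℝ} (hD : Dat N γ)
include hD

theorem ff_sum (n : ℕ) : 23 * (N n : ℝ) * m (N n) ^ 3 ≤
    ∑ k ∈ SS (N n) (N (n + 1)), bb N γ n k * ff (N n) k := by
  have o1 := hD.sc.one n
  have o2 := hD.sc.two n
  rw [show (∑ k ∈ SS (N n) (N (n + 1)), bb N γ n k * ff (N n) k) =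
    ∑ k ∈ SS (N n) (N (n + 1)), b (N n) (N (n + 1)) (γ n) k * ff (N n) k from rfl, sum_b o1 o2]
  have h1 : 8 * (N n : ℝ) * (3 * m (N n) ^ 3) ≤ ∑ k ∈ Q (N n), g (N n) k * ff (N n) k := by
    rw [← sum_g_one (Subset.refl (Q (N n))), mul_sum]
    refine sum_le_sum fun k hk => ?_
    rw [mul_comm]
    exact mul_le_mul_of_nonneg_left (ff_Q o1 hk) (g_nonneg _ _)
  have h2 : -(21 * (N (n + 1) : ℝ)) ≤ ff (N n) (hh (N n) (N (n + 1))) := by
    refine le_trans (le_of_eq ?_) (ff_abs _ _)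
    rw [hh0]
    push_cast
    rw [abs_of_nonneg (by positivity)]
  have h3 : -(21 * (N (n + 1) : ℝ)) ≤ ff (N n) (-hh (N n) (N (n + 1))) := by
    refine le_trans (le_of_eq ?_) (ff_abs _ _)
    rw [Pi.neg_apply, hh0]
    push_cast
    rw [abs_neg, abs_of_nonneg (by positivity)]
  have h4 := hD.sm1 n
  have h5 := (hD.pos n).le
  have h6 : -1 ≤ γ n * (ff (N n) (hh (N n) (N (n + 1))) + ff (N n) (-hh (N n) (N (n + 1)))) := by
    calc (-1 : ℝ) ≤ -(42 * (1 / 10 ^ 12)) := by norm_num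
      _ ≤ -(42 * (γ n * (N (n + 1) : ℝ))) := by linarith
      _ = γ n * (-(21 * (N (n + 1) : ℝ)) + -(21 * (N (n + 1) : ℝ))) := by ring
      _ ≤ _ := mul_le_mul_of_nonneg_left (add_le_add h2 h3) h5
  have hx := hD.nr n
  have hm : 1 ≤ m (N n) ^ 3 := one_le_pow₀ (by unfold m; linarith)
  nlinarith

theorem norm_ge (v : E3) (i : Fin 3) : |v i| ≤ ‖v‖ := by
  have := PiLp.norm_apply_le v i
  rwa [Real.norm_eq_abs] at this

theorem pt_comp (n : ℕ) : (∑' k : Z3, Real.sin (2 * Real.pi * inner ℝ (vec k) (yy (N n))) •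
    PP N γ n k) 1 = -(cc N γ n * ∑ k ∈ SS (N n) (N (n + 1)), bb N γ n k * ff (N n) k) := by
  rw [tsum_eq_sum (s := SS (N n) (N (n + 1)))]
  · have e : ∀ (s : Finset Z3) (F : Z3 → E3), (∑ k ∈ s, F k) 1 = ∑ k ∈ s, F k 1 := by
      intro s F
      exact map_sum (EuclideanSpace.proj (𝕜 := ℝ) (1 : Fin 3)) F s
    rw [e, mul_sum, ← sum_neg_distrib]
    refine sum_congr rfl fun k _ => ?_
    rw [inner_yy, ff, PP, fam, perp]
    simp
    ring
  · intro k hk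
    have : PP N γ n k = 0 := by
      by_contra h
      exact hk (mem_of_PP hD h)
    rw [this, smul_zero]

theorem pt_bd (n : ℕ) : √((20 * (N n : ℝ)) ^ 3) / 1000 ≤
    ‖∑' k : Z3, Real.sin (2 * Real.pi * inner ℝ (vec k) (yy (N n))) • PP N γ n k‖ := by
  refine le_trans ?_ (norm_ge hD _ 1)
  rw [pt_comp hD, abs_neg]
  have hc := cc_pos hD n
  have hx := hD.nr n
  have hm : 2 * (N n : ℝ) ≤ m (N n) := by unfold m; linarith
  have hm0 := m_pos (N n)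
  have h1 := ff_sum hD n
  have h0 : 0 ≤ 23 * (N n : ℝ) * m (N n) ^ 3 := by positivity
  have h2 := ZZ_hi hD n
  have h3 := ZZ_pos hD n
  rw [abs_of_nonneg (mul_nonneg hc.le (h0.trans h1))]
  refine le_trans ?_ (mul_le_mul_of_nonneg_left h1 hc.le)
  rw [div_le_iff₀ (by norm_num), Real.sqrt_le_left (by positivity)]
  have h4 : (cc N γ n * (23 * (N n : ℝ) * m (N n) ^ 3) * 1000) ^ 2 =
      cc N γ n ^ 2 * (529000000 * (V (N n) * m (N n) ^ 3)) := by
    rw [V]; ring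
  rw [h4, cc_sq hD, inv_mul_eq_div, le_div_iff₀ h3]
  have h5 : (2 * (N n : ℝ)) ^ 3 ≤ m (N n) ^ 3 := pow_le_pow_left₀ (by positivity) hm 3
  have hV := V_pos hD n
  have h6 : ZZ N γ n ≤ 2000 * V (N n) := h2.trans (by nlinarith)
  calc (20 * (N n : ℝ)) ^ 3 * ZZ N γ n ≤ (20 * (N n : ℝ)) ^ 3 * (2000 * V (N n)) :=
        mul_le_mul_of_nonneg_left h6 (by positivity)
    _ = 2000000 * (V (N n) * (2 * (N n : ℝ)) ^ 3) := by ring
    _ ≤ 2000000 * (V (N n) * m (N n) ^ 3) :=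
        mul_le_mul_of_nonneg_left (mul_le_mul_of_nonneg_left h5 hV.le) (by norm_num)
    _ ≤ _ := by
        have : 0 ≤ V (N n) * m (N n) ^ 3 := by positivity
        linarith

end

end Pool.Agent.Y155.ND
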